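import Mathlib

/-!
# Systems of equations over a two-generated group, with abelianisation constraints
-/

set_option autoImplicit false

namespace Pool.Agent.Lib.MP_184b96_al

/-- A word in the variables `x_0, x_1, …` (`Sum.inl j` is `x_j`) and the two generators of the
group (`Sum.inr i` is the `i`-th generator). A letter with sign `true` stands for itself, one
with sign `false` for its inverse. -/
abbrev EqWord : Type := List ((ℕ ⊕ Fin 2) × Bool)

/-- The value of a letter when the generators are `gen` and the variables take the values `x`. -/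
def letterVal {G : Type*} [Group G] (gen : Fin 2 → G) (x : ℕ → G) (l : (ℕ ⊕ Fin 2) × Bool) : G :=
  if l.2 then Sum.elim x gen l.1 else (Sum.elim x gen l.1)⁻¹

/-- The value of a word: the product of the values of its letters. -/
def wordVal {G : Type*} [Group G] (gen : Fin 2 → G) (x : ℕ → G) (w : EqWord) : G :=
  (w.map (letterVal gen x)).prod

/-- The Diophantine problem of the group `G` with generators `gen`: the finite system
`{w = 1 : w ∈ S}` has a solution in `G`. -/
def DP {G : Type*} [Group G] (gen : Fin 2 → G) (S : List EqWord) : Prop :=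
  ∃ x : ℕ → G, ∀ w ∈ S, wordVal gen x w = 1

/-- The Diophantine problem with abelianisation constraints of the group `G` with generators
`gen`: the finite system `{w = 1 : w ∈ p.1}` over `G` has a solution `x` in `G` whose image in the
abelianisation of `G` solves the system `{w = 1 : w ∈ p.2}` over the abelianisation. -/
def DPab {G : Type*} [Group G] (gen : Fin 2 → G) (p : List EqWord × List EqWord) : Prop :=
  ∃ x : ℕ → G, (∀ w ∈ p.1, wordVal gen x w = 1) ∧
    ∀ w ∈ p.2, wordVal (fun i => Abelianization.of (gen i)) (fun j => Abelianization.of (x j)) w = 1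

/-- The relator `t a t⁻¹ a⁻ⁿ`, where `a` is the generator `0` and `t` the generator `1`. -/
def BSRel (n : ℤ) : Set (FreeGroup (Fin 2)) :=
  {FreeGroup.of 1 * FreeGroup.of 0 * (FreeGroup.of 1)⁻¹ * (FreeGroup.of 0 ^ n)⁻¹}

/-- The Baumslag–Solitar group `BS(1,n) = ⟨a, t | t a t⁻¹ = aⁿ⟩`. -/
abbrev BS (n : ℤ) : Type := PresentedGroup (BSRel n)

/-- The generators `a` (index `0`) and `t` (index `1`) of `BS(1,n)`. -/
def BSgen (n : ℤ) : Fin 2 → BS n := PresentedGroup.of

/-- The alternating product `a b a b ⋯` with `m` factors, starting with `a`. -/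
def alt {G : Type*} [Monoid G] : ℕ → G → G → G
  | 0, _, _ => 1
  | m + 1, a, b => a * alt m b a

/-- The relator `(a b a ⋯)(b a b ⋯)⁻¹`, both alternating words of length `m`. -/
def ArtinRel (m : ℕ) : Set (FreeGroup (Fin 2)) :=
  {alt m (FreeGroup.of 0) (FreeGroup.of 1) * (alt m (FreeGroup.of 1) (FreeGroup.of 0))⁻¹}

/-- The dihedral Artin group `A_m = ⟨a, b | a b a ⋯ = b a b ⋯⟩` (alternating words of length `m`). -/
abbrev DihArtin (m : ℕ) : Type := PresentedGroup (ArtinRel m)

/-- The generators `a` (index `0`) and `b` (index `1`) of `A_m`. -/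
def artinGen (m : ℕ) : Fin 2 → DihArtin m := PresentedGroup.of

/-- The relators `u²`, `vᵐ`. -/
def FPRel (m : ℕ) : Set (FreeGroup (Fin 2)) := {FreeGroup.of 0 ^ 2, FreeGroup.of 1 ^ m}

/-- The free product `ℤ/2 * ℤ/m = ⟨u, v | u² = vᵐ = 1⟩`. -/
abbrev FP (m : ℕ) : Type := PresentedGroup (FPRel m)

/-- The generators `u` (index `0`) and `v` (index `1`) of `ℤ/2 * ℤ/m`. -/
def fpGen (m : ℕ) : Fin 2 → FP m := PresentedGroup.of

section basic

variable {G H : Type*} [Group G] [Group H]

lemma wordVal_nil (gen : Fin 2 → G) (x : ℕ → G) : wordVal gen x [] = 1 := rfl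

lemma wordVal_cons (gen : Fin 2 → G) (x : ℕ → G) (l : (ℕ ⊕ Fin 2) × Bool) (w : EqWord) :
    wordVal gen x (l :: w) = letterVal gen x l * wordVal gen x w := by
  simp [wordVal]

lemma wordVal_append (gen : Fin 2 → G) (x : ℕ → G) (v w : EqWord) :
    wordVal gen x (v ++ w) = wordVal gen x v * wordVal gen x w := by
  simp [wordVal]

lemma letterVal_map (f : G →* H) (gen : Fin 2 → G) (x : ℕ → G) (l : (ℕ ⊕ Fin 2) × Bool) :
    letterVal (fun i => f (gen i)) (fun j => f (x j)) l = f (letterVal gen x l) := by
  obtain ⟨l, b⟩ := l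
  cases b <;> cases l <;> simp [letterVal]

lemma wordVal_map (f : G →* H) (gen : Fin 2 → G) (x : ℕ → G) (w : EqWord) :
    wordVal (fun i => f (gen i)) (fun j => f (x j)) w = f (wordVal gen x w) := by
  induction w with
  | nil => simp [wordVal_nil]
  | cons l w ih => rw [wordVal_cons, wordVal_cons, map_mul, ih, letterVal_map]

/-- rename the variables: `x_j ↦ x_{2j}` -/
def dbl (l : (ℕ ⊕ Fin 2) × Bool) : (ℕ ⊕ Fin 2) × Bool :=
  (Sum.elim (fun j => Sum.inl (2 * j)) Sum.inr l.1, l.2)

lemma letterVal_dbl (gen : Fin 2 → G) (x : ℕ → G) (l : (ℕ ⊕ Fin 2) × Bool) :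
    letterVal gen x (dbl l) = letterVal gen (fun j => x (2 * j)) l := by
  obtain ⟨l, b⟩ := l
  cases b <;> cases l <;> simp [letterVal, dbl]

lemma wordVal_dbl (gen : Fin 2 → G) (x : ℕ → G) (w : EqWord) :
    wordVal gen x (w.map dbl) = wordVal gen (fun j => x (2 * j)) w := by
  induction w with
  | nil => rfl
  | cons l w ih => rw [List.map_cons, wordVal_cons, wordVal_cons, ih, letterVal_dbl]

end basic

end Pool.Agent.Lib.MP_184b96_al
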