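import Mathlib
import Pool.Agent.Lib.MP_184b96_al.Defs

/-!
# Odd dihedral Artin groups as fibre products
-/

set_option autoImplicit false

namespace Pool.Agent.Lib.MP_184b96_al

section algebra

lemma alt_odd {G : Type*} [Group G] (a b : G) (k : ℕ) :
    alt (2 * k + 1) a b = (a * b) ^ k * a ∧ alt (2 * k) a b = (a * b) ^ k := by
  induction k generalizing a b with
  | zero => simp [alt]
  | succ k ih =>
    have h1 : alt (2 * (k + 1)) a b = (a * b) ^ (k + 1) := by
      have : 2 * (k + 1) = (2 * k + 1) + 1 := by ring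
      rw [this, alt, (ih b a).1, ← mul_assoc]
      have h : ∀ n : ℕ, a * (b * a) ^ n = (a * b) ^ n * a := by
        intro n
        induction n with
        | zero => simp
        | succ n ihn => rw [pow_succ, ← mul_assoc, ihn, pow_succ]; group
      rw [h, pow_succ, mul_assoc]
    refine ⟨?_, h1⟩
    have : alt (2 * (k + 1) + 1) a b = a * alt (2 * (k + 1)) b a := rfl
    rw [this]
    have h2 : alt (2 * (k + 1)) b a = (b * a) ^ (k + 1) := by
      have : 2 * (k + 1) = (2 * k + 1) + 1 := by ring
      rw [this, alt, (ih a b).1, ← mul_assoc]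
      have h : ∀ n : ℕ, b * (a * b) ^ n = (b * a) ^ n * b := by
        intro n
        induction n with
        | zero => simp
        | succ n ihn => rw [pow_succ, ← mul_assoc, ihn, pow_succ]; group
      rw [h, pow_succ, mul_assoc]
    rw [h2]
    have h : ∀ n : ℕ, a * (b * a) ^ n = (a * b) ^ n * a := by
      intro n
      induction n with
      | zero => simp
      | succ n ihn => rw [pow_succ, ← mul_assoc, ihn, pow_succ]; group
    exact h _

lemma map_alt {G H : Type*} [Group G] [Group H] (f : G →* H) (m : ℕ) (a b : G) :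
    f (alt m a b) = alt m (f a) (f b) := by
  induction m generalizing a b with
  | zero => simp [alt]
  | succ m ih => simp [alt, ih]

variable (k : ℕ)

/-- shorthand -/
abbrev A : Type := DihArtin (2 * k + 1)
abbrev Q : Type := FP (2 * k + 1)

def ga : A k := artinGen (2 * k + 1) 0
def gb : A k := artinGen (2 * k + 1) 1
def gu : Q k := fpGen (2 * k + 1) 0
def gv : Q k := fpGen (2 * k + 1) 1

lemma artin_rel : (ga k * gb k) ^ k * ga k = (gb k * ga k) ^ k * gb k := by
  have h : PresentedGroup.mk (ArtinRel (2 * k + 1)) (alt (2 * k + 1) (FreeGroup.of 0) (FreeGroup.of 1) *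
    (alt (2 * k + 1) (FreeGroup.of 1) (FreeGroup.of 0))⁻¹) = 1 := PresentedGroup.one_of_mem rfl
  rw [map_mul, map_inv, map_alt, map_alt, mul_inv_eq_one, (alt_odd _ _ k).1, (alt_odd _ _ k).1] at h
  exact h

/-- `v = ab` -/
def av : A k := ga k * gb k
/-- `u = (ab)^k a` -/
def au : A k := (ga k * gb k) ^ k * ga k
/-- central element -/
def ac : A k := av k ^ (2 * k + 1)

lemma ac_eq : ac k = au k ^ 2 := by
  have h1 : au k = (gb k * ga k) ^ k * gb k := artin_rel k
  have h2 : ∀ n : ℕ, ga k * (gb k * ga k) ^ n = (ga k * gb k) ^ n * ga k := by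
    intro n
    induction n with
    | zero => simp
    | succ n ihn => rw [pow_succ, ← mul_assoc, ihn, pow_succ]; group
  have : au k ^ 2 = au k * ((gb k * ga k) ^ k * gb k) := by rw [pow_two]; nth_rw 2 [h1]
  rw [this, au, ac, av]
  calc (ga k * gb k) ^ (2 * k + 1) = (ga k * gb k) ^ k * ((ga k * gb k) ^ k * (ga k * gb k)) := by
        rw [← pow_succ, ← pow_add]; congr 1; ring
    _ = (ga k * gb k) ^ k * (((ga k * gb k) ^ k * ga k) * gb k) := by group
    _ = (ga k * gb k) ^ k * ((ga k * (gb k * ga k) ^ k) * gb k) := by rw [h2]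
    _ = _ := by group

lemma ga_eq : ga k = (av k ^ k)⁻¹ * au k := by
  rw [au, av]; group

lemma gb_eq : gb k = (au k)⁻¹ * av k ^ (k + 1) := by
  have : av k ^ (k + 1) = au k * gb k := by
    rw [au, av, pow_succ]; group
  rw [this]; group

lemma ac_central (g : A k) : ac k * g = g * ac k := by
  have hv : Commute (ac k) (av k) := (Commute.refl (av k)).pow_left _
  have hu : Commute (ac k) (au k) := by rw [ac_eq]; exact (Commute.refl (au k)).pow_left _
  have ha : Commute (ac k) (ga k) := by
    rw [ga_eq]; exact ((hv.pow_right k).inv_right).mul_right hu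
  have hb : Commute (ac k) (gb k) := by
    rw [gb_eq]; exact (hu.inv_right).mul_right (hv.pow_right _)
  have : g ∈ Subgroup.centralizer {ac k} := by
    apply PresentedGroup.generated_by
    intro j
    rw [Subgroup.mem_centralizer_singleton_iff]
    fin_cases j
    · exact ha.symm
    · exact hb.symm
  rw [Subgroup.mem_centralizer_singleton_iff] at this
  exact this.symm

lemma fp_u : gu k ^ 2 = 1 := by
  have h : PresentedGroup.mk (FPRel (2 * k + 1)) (FreeGroup.of 0 ^ 2) = 1 :=
    PresentedGroup.one_of_mem (Or.inl rfl)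
  rwa [map_pow] at h

lemma fp_v : gv k ^ (2 * k + 1) = 1 := by
  have h : PresentedGroup.mk (FPRel (2 * k + 1)) (FreeGroup.of 1 ^ (2 * k + 1)) = 1 :=
    PresentedGroup.one_of_mem (Or.inr rfl)
  rwa [map_pow] at h

/-- images of `a`, `b` in `ℤ/2 * ℤ/m` -/
def pgen : Fin 2 → Q k := ![(gv k ^ k)⁻¹ * gu k, (gu k)⁻¹ * gv k ^ (k + 1)]

lemma pgen_mul : pgen k 0 * pgen k 1 = gv k := by
  simp only [pgen, Matrix.cons_val_zero, Matrix.cons_val_one]
  rw [pow_succ]; group

/-- the projection -/
def p : A k →* Q k := PresentedGroup.toGroup (f := pgen k) (by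
  rintro r rfl
  rw [map_mul, map_inv, map_alt, map_alt, FreeGroup.lift_apply_of, FreeGroup.lift_apply_of,
    mul_inv_eq_one, (alt_odd _ _ k).1, (alt_odd _ _ k).1, pgen_mul]
  have h2 : (pgen k 1 * pgen k 0) ^ k * pgen k 1 = (pgen k 0)⁻¹ * (pgen k 0 * pgen k 1) ^ (k + 1) := by
    have h : ∀ n : ℕ, pgen k 0 * ((pgen k 1 * pgen k 0) ^ n * pgen k 1) =
        (pgen k 0 * pgen k 1) ^ (n + 1) := by
      intro n
      induction n with
      | zero => simp
      | succ n ihn =>
        rw [pow_succ (pgen k 0 * pgen k 1) (n + 1), ← ihn, pow_succ]; group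
    rw [← h k]; group
  rw [h2, pgen_mul]
  simp only [pgen, Matrix.cons_val_zero]
  have hu : (gu k)⁻¹ = gu k := by
    rw [inv_eq_iff_mul_eq_one, ← pow_two, fp_u]
  have hv := fp_v k
  have hv2 : gv k ^ k * gv k ^ (k + 1) = 1 := by
    rw [← pow_add, ← hv]; congr 1; ring
  calc gv k ^ k * ((gv k ^ k)⁻¹ * gu k) = gu k := by group
    _ = (gu k)⁻¹ * (gv k ^ k * gv k ^ (k + 1)) := by rw [hv2, hu, mul_one]
    _ = _ := by group)

lemma p_ga : p k (ga k) = (gv k ^ k)⁻¹ * gu k := by
  rw [p, ga, artinGen, PresentedGroup.toGroup.of]; rfl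
lemma p_gb : p k (gb k) = (gu k)⁻¹ * gv k ^ (k + 1) := by
  rw [p, gb, artinGen, PresentedGroup.toGroup.of]; rfl

lemma p_av : p k (av k) = gv k := by
  rw [av, map_mul, p_ga, p_gb, pow_succ]; group
lemma p_au : p k (au k) = gu k := by
  have : au k = av k ^ k * ga k := rfl
  rw [this, map_mul, map_pow, p_av, p_ga]; group
lemma p_ac : p k (ac k) = 1 := by rw [ac, map_pow, p_av, fp_v]

lemma p_surj : Function.Surjective (p k) := by
  intro q
  have : q ∈ (p k).range := by
    apply PresentedGroup.generated_by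
    intro j
    fin_cases j
    · exact ⟨au k, p_au k⟩
    · exact ⟨av k, p_av k⟩
  exact this

/-- exponent sum -/
def ex : A k →* Multiplicative ℤ := PresentedGroup.toGroup (f := fun _ => Multiplicative.ofAdd 1) (by
  rintro r rfl
  rw [map_mul, map_inv, map_alt, map_alt, FreeGroup.lift_apply_of, FreeGroup.lift_apply_of,
    mul_inv_eq_one])

lemma ex_ga : ex k (ga k) = Multiplicative.ofAdd 1 := by
  rw [ex, ga, artinGen, PresentedGroup.toGroup.of]
lemma ex_gb : ex k (gb k) = Multiplicative.ofAdd 1 := by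
  rw [ex, gb, artinGen, PresentedGroup.toGroup.of]
lemma ex_av : ex k (av k) = Multiplicative.ofAdd 2 := by
  rw [av, map_mul, ex_ga, ex_gb]; rfl
lemma ex_ac : ex k (ac k) = Multiplicative.ofAdd (2 * (2 * k + 1) : ℤ) := by
  rw [ac, map_pow, ex_av, ← ofAdd_nsmul]
  congr 1
  simp; ring

/-- the modulus -/
abbrev md : ℕ := 2 * (2 * k + 1)

/-- residue -/
def rho : Q k →* Multiplicative (ZMod (md k)) :=
  PresentedGroup.toGroup (f := ![Multiplicative.ofAdd (2 * k + 1 : ZMod (md k)), Multiplicative.ofAdd 2]) (by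
    have hmd : ((2 * (2 * k + 1) : ℕ) : ZMod (md k)) = 0 := ZMod.natCast_self _
    push_cast at hmd
    rintro r (rfl | rfl)
    · rw [map_pow, FreeGroup.lift_apply_of]
      simp only [Matrix.cons_val_zero]
      rw [← ofAdd_nsmul, ← ofAdd_zero]
      congr 1
      simp only [nsmul_eq_mul]
      push_cast
      exact hmd
    · rw [map_pow, FreeGroup.lift_apply_of]
      change (Multiplicative.ofAdd (2 : ZMod (md k))) ^ (2 * k + 1) = 1
      rw [← ofAdd_nsmul, ← ofAdd_zero]
      congr 1
      simp only [nsmul_eq_mul]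
      push_cast
      rw [mul_comm]
      exact hmd)

lemma rho_gu : rho k (gu k) = Multiplicative.ofAdd (2 * k + 1 : ZMod (md k)) := by
  rw [rho, gu, fpGen, PresentedGroup.toGroup.of]; rfl
lemma rho_gv : rho k (gv k) = Multiplicative.ofAdd 2 := by
  rw [rho, gv, fpGen, PresentedGroup.toGroup.of]; rfl

/-- reduction mod `2m` -/
def redMod : Multiplicative ℤ →* Multiplicative (ZMod (md k)) :=
  (Int.castAddHom (ZMod (md k))).toMultiplicative

lemma rho_p (g : A k) : rho k (p k g) = redMod k (ex k g) := by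
  have : (rho k).comp (p k) = (redMod k).comp (ex k) := by
    apply PresentedGroup.ext
    intro j
    fin_cases j
    · change rho k (p k (ga k)) = redMod k (ex k (ga k))
      rw [p_ga, ex_ga, map_mul, map_inv, map_pow, rho_gu, rho_gv]
      apply Multiplicative.toAdd.injective
      simp [redMod]
      ring
    · change rho k (p k (gb k)) = redMod k (ex k (gb k))
      rw [p_gb, ex_gb, map_mul, map_inv, map_pow, rho_gu, rho_gv]
      apply Multiplicative.toAdd.injective
      simp [redMod]
      ring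
  exact DFunLike.congr_fun this g

/-- kernel of the projection -/
lemma ker_p {g : A k} (hg : p k g = 1) : ∃ j : ℤ, g = ac k ^ j := by
  let C : Subgroup (A k) := Subgroup.zpowers (ac k)
  have hC : C.Normal := by
    constructor
    rintro _ ⟨j, rfl⟩ h
    refine ⟨j, ?_⟩
    have : Commute (ac k) h := ac_central k h
    have h2 := (this.zpow_left j).eq
    simp only at h2 ⊢
    rw [← h2]; group
  have hcC : ((ac k : A k) : A k ⧸ C) = 1 := by
    rw [QuotientGroup.eq_one_iff]; exact Subgroup.mem_zpowers _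
  let ψ : Q k →* A k ⧸ C := PresentedGroup.toGroup
    (f := ![((au k : A k) : A k ⧸ C), ((av k : A k) : A k ⧸ C)]) (by
      rintro r (rfl | rfl)
      · rw [map_pow, FreeGroup.lift_apply_of]
        change ((au k : A k) : A k ⧸ C) ^ 2 = 1
        rw [← QuotientGroup.mk_pow, ← ac_eq]
        exact hcC
      · rw [map_pow, FreeGroup.lift_apply_of]
        change ((av k : A k) : A k ⧸ C) ^ (2 * k + 1) = 1
        rw [← QuotientGroup.mk_pow]
        exact hcC)
  have hψu : ψ (gu k) = ((au k : A k) : A k ⧸ C) := by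
    simp only [ψ, gu, fpGen]
    rw [PresentedGroup.toGroup.of]; rfl
  have hψv : ψ (gv k) = ((av k : A k) : A k ⧸ C) := by
    simp only [ψ, gv, fpGen]
    rw [PresentedGroup.toGroup.of]; rfl
  have hcomp : ψ.comp (p k) = QuotientGroup.mk' C := by
    apply PresentedGroup.ext
    intro j
    fin_cases j
    · change ψ (p k (ga k)) = ((ga k : A k) : A k ⧸ C)
      rw [p_ga, map_mul, map_inv, map_pow, hψu, hψv]
      rw [← QuotientGroup.mk_pow, ← QuotientGroup.mk_inv, ← QuotientGroup.mk_mul, ← ga_eq]
    · change ψ (p k (gb k)) = ((gb k : A k) : A k ⧸ C)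
      rw [p_gb, map_mul, map_inv, map_pow, hψu, hψv]
      rw [← QuotientGroup.mk_pow, ← QuotientGroup.mk_inv, ← QuotientGroup.mk_mul, ← gb_eq]
  have h1 : (QuotientGroup.mk' C) g = 1 := by
    rw [← hcomp, MonoidHom.comp_apply, hg, map_one]
  have h2 : g ∈ C := (QuotientGroup.eq_one_iff g).1 h1
  obtain ⟨j, hj⟩ := h2
  exact ⟨j, hj.symm⟩

lemma eq_one_iff {g : A k} : g = 1 ↔ p k g = 1 ∧ ex k g = 1 := by
  constructor
  · rintro rfl; simp
  · rintro ⟨h1, h2⟩
    obtain ⟨j, rfl⟩ := ker_p k h1
    rw [map_zpow, ex_ac, ← ofAdd_zsmul, ← ofAdd_zero] at h2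
    have h3 := Multiplicative.ofAdd.injective h2
    simp only [smul_eq_mul, mul_eq_zero] at h3
    rcases h3 with h | h
    · rw [h]; simp
    · exfalso; omega

lemma exists_lift (q : Q k) (n : ℤ) (h : rho k q = Multiplicative.ofAdd (n : ZMod (md k))) :
    ∃ g : A k, p k g = q ∧ ex k g = Multiplicative.ofAdd n := by
  obtain ⟨g₀, rfl⟩ := p_surj k q
  rw [rho_p] at h
  have h1 : (((ex k g₀).toAdd : ℤ) : ZMod (md k)) = (n : ZMod (md k)) :=
    Multiplicative.ofAdd.injective h
  rw [ZMod.intCast_eq_intCast_iff_dvd_sub] at h1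
  obtain ⟨l, hl⟩ := h1
  refine ⟨g₀ * ac k ^ l, ?_, ?_⟩
  · rw [map_mul, map_zpow, p_ac]; simp
  · rw [map_mul, map_zpow, ex_ac]
    apply Multiplicative.toAdd.injective
    simp only [toAdd_mul, toAdd_zpow, toAdd_ofAdd, smul_eq_mul]
    push_cast at hl
    linarith

/-- In the abelianisation, `g` is `a` to the exponent sum. -/
lemma ab_eq (g : A k) : Abelianization.of g = Abelianization.of (ga k) ^ (ex k g).toAdd := by
  have hab : Abelianization.of (ga k) = Abelianization.of (gb k) := by
    have h := congrArg Abelianization.of (artin_rel k)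
    simp only [map_mul, map_pow] at h
    rw [mul_comm (Abelianization.of (gb k)) (Abelianization.of (ga k))] at h
    exact mul_left_cancel h
  have : (Abelianization.of : A k →* Abelianization (A k)) =
      (zpowersHom _ (Abelianization.of (ga k))).comp (ex k) := by
    apply PresentedGroup.ext
    intro j
    fin_cases j
    · change Abelianization.of (ga k) = zpowersHom _ (Abelianization.of (ga k)) (ex k (ga k))
      rw [ex_ga]; simp
    · change Abelianization.of (gb k) = zpowersHom _ (Abelianization.of (ga k)) (ex k (gb k))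
      rw [ex_gb, ← hab]; simp
  have h2 := DFunLike.congr_fun this g
  rw [h2]
  simp [zpowersHom_apply]

lemma ab_one_iff (g : A k) : Abelianization.of g = 1 ↔ ex k g = 1 := by
  constructor
  · intro h
    have h1 : Abelianization.lift (ex k) (Abelianization.of g) = 1 := by rw [h, map_one]
    rwa [Abelianization.lift_apply_of] at h1
  · intro h
    rw [ab_eq, h]; simp

lemma abQ_one_iff (q : Q k) : Abelianization.of q = 1 ↔ rho k q = 1 := by
  constructor
  · intro h
    have h1 : Abelianization.lift (rho k) (Abelianization.of q) = 1 := by rw [h, map_one]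
    rwa [Abelianization.lift_apply_of] at h1
  · intro h
    obtain ⟨g, hg1, hg2⟩ := exists_lift k q 0 (by rw [h]; simp)
    have h1 : Abelianization.of g = 1 := by rw [ab_one_iff, hg2]; rfl
    have h2 := congrArg (Abelianization.map (p k)) h1
    rw [Abelianization.map_of, hg1, map_one] at h2
    exact h2

end algebra

end Pool.Agent.Lib.MP_184b96_al
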