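import Mathlib
import Pool.Agent.Lib.MP_184b96_al.Defs

/-!
# Reduction of (DP,ab) to DP when every element of the derived subgroup is `[t,y]`
-/

set_option autoImplicit false

namespace Pool.Agent.Lib.MP_184b96_al

section reduction

variable {G : Type*} [Group G]

/-- the word `w` with renamed variables followed by `[t, y]⁻¹`, `y` a fresh variable -/
def consWord (w : EqWord) : EqWord :=
  w.map dbl ++ [(Sum.inl (2 * Encodable.encode w + 1), true), (Sum.inr 1, true),
    (Sum.inl (2 * Encodable.encode w + 1), false), (Sum.inr 1, false)]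

/-- the reduction map -/
def redMap (p : List EqWord × List EqWord) : List EqWord :=
  p.1.map (fun w => w.map dbl) ++ p.2.map consWord

lemma primrec_dbl : Primrec dbl := by
  unfold dbl
  have h1 : Primrec fun l : (ℕ ⊕ Fin 2) × Bool =>
      (Sum.elim (fun j => Sum.inl (2 * j)) Sum.inr l.1 : ℕ ⊕ Fin 2) := by
    have := Primrec.sumCasesOn (f := fun l : (ℕ ⊕ Fin 2) × Bool => l.1)
      (g := fun _ j => (Sum.inl (2 * j) : ℕ ⊕ Fin 2)) (h := fun _ i => (Sum.inr i : ℕ ⊕ Fin 2))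
      Primrec.fst
      (Primrec.sumInl.comp (Primrec.nat_double.comp Primrec.snd)).to₂
      (Primrec.sumInr.comp Primrec.snd).to₂
    refine this.of_eq ?_
    rintro ⟨l, b⟩
    cases l <;> rfl
  exact h1.pair Primrec.snd

lemma primrec_mapdbl : Primrec fun w : EqWord => w.map dbl :=
  Primrec.list_map Primrec.id (primrec_dbl.comp Primrec.snd).to₂

lemma primrec_consWord : Primrec consWord := by
  unfold consWord
  have he : Primrec fun w : EqWord => 2 * Encodable.encode w + 1 :=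
    Primrec.nat_double_succ.comp Primrec.encode
  have hl : ∀ b : Bool, Primrec fun w : EqWord =>
      ((Sum.inl (2 * Encodable.encode w + 1), b) : (ℕ ⊕ Fin 2) × Bool) := fun b =>
    (Primrec.sumInl.comp he).pair (Primrec.const b)
  have hc : ∀ l : (ℕ ⊕ Fin 2) × Bool, Primrec fun _ : EqWord => l := fun l => Primrec.const l
  refine Primrec.list_append.comp primrec_mapdbl ?_
  exact Primrec.list_cons.comp (hl true) (Primrec.list_cons.comp (hc _)
    (Primrec.list_cons.comp (hl false) (Primrec.list_cons.comp (hc _) (Primrec.const []))))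

lemma primrec_redMap : Primrec redMap := by
  unfold redMap
  exact Primrec.list_append.comp
    (Primrec.list_map Primrec.fst (primrec_mapdbl.comp Primrec.snd).to₂)
    (Primrec.list_map Primrec.snd (primrec_consWord.comp Primrec.snd).to₂)

theorem reduction (gen : Fin 2 → G)
    (h : ∀ g : G, Abelianization.of g = 1 → ∃ y, g = gen 1 * y * (gen 1)⁻¹ * y⁻¹) :
    ManyOneReducible (DPab gen) (DP gen) := by
  refine ⟨redMap, primrec_redMap.to_comp, ?_⟩
  rintro ⟨S, S'⟩
  constructor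
  · rintro ⟨x, h1, h2⟩
    classical
    -- witnesses
    have hw : ∀ w : EqWord, ∃ y : G, w ∈ S' → wordVal gen x w = gen 1 * y * (gen 1)⁻¹ * y⁻¹ := by
      intro w
      by_cases hwS : w ∈ S'
      · have h3 := h2 w hwS
        rw [wordVal_map Abelianization.of gen x w] at h3
        obtain ⟨y, hy⟩ := h _ h3
        exact ⟨y, fun _ => hy⟩
      · exact ⟨1, fun h => absurd h hwS⟩
    choose Y hY using hw
    let x' : ℕ → G := fun k => if k % 2 = 0 then x (k / 2) else
      match (Encodable.decode (k / 2) : Option EqWord) with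
      | some w => Y w
      | none => 1
    have hx0 : (fun j => x' (2 * j)) = x := by
      funext j
      simp [x']
    have hx1 : ∀ w : EqWord, x' (2 * Encodable.encode w + 1) = Y w := by
      intro w
      have e1 : (2 * Encodable.encode w + 1) % 2 = 1 := by omega
      have e2 : (2 * Encodable.encode w + 1) / 2 = Encodable.encode w := by omega
      simp only [x', e1, e2, Encodable.encodek]
      simp
    refine ⟨x', ?_⟩
    intro w hw
    rw [redMap, List.mem_append, List.mem_map, List.mem_map] at hw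
    rcases hw with ⟨v, hv, rfl⟩ | ⟨v, hv, rfl⟩
    · rw [wordVal_dbl, hx0]
      exact h1 v hv
    · rw [consWord, wordVal_append, wordVal_dbl, hx0, hY v hv]
      simp [wordVal, letterVal, hx1]
  · rintro ⟨x', h'⟩
    refine ⟨fun j => x' (2 * j), ?_, ?_⟩
    · intro w hw
      rw [← wordVal_dbl]
      apply h'
      rw [redMap, List.mem_append, List.mem_map]
      exact Or.inl ⟨w, hw, rfl⟩
    · intro w hw
      rw [wordVal_map Abelianization.of gen (fun j => x' (2 * j)) w]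
      have h3 := h' (consWord w) (by
        rw [redMap, List.mem_append, List.mem_map, List.mem_map]
        exact Or.inr ⟨w, hw, rfl⟩)
      rw [consWord, wordVal_append, wordVal_dbl] at h3
      have h4 := congrArg Abelianization.of h3
      simp only [wordVal, letterVal, List.map_cons, List.map_nil, List.prod_cons, List.prod_nil,
        map_mul, map_one, if_true, Sum.elim_inl, Sum.elim_inr] at h4
      simp only [Bool.false_eq_true, if_false, map_inv, mul_one] at h4
      have h5 : ∀ a b c : Abelianization G, a * (b * (c * (b⁻¹ * c⁻¹))) = 1 → a = 1 := by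
        intro a b c habc
        have : b * (c * (b⁻¹ * c⁻¹)) = 1 := by
          rw [mul_comm b⁻¹ c⁻¹, ← mul_assoc c, mul_inv_cancel, one_mul, mul_inv_cancel]
        rwa [this, mul_one] at habc
      exact h5 _ _ _ h4

end reduction

section bs

variable {n : ℤ}

lemma bs_rel : BSgen n 1 * BSgen n 0 * (BSgen n 1)⁻¹ = BSgen n 0 ^ n := by
  have h : (PresentedGroup.mk (BSRel n)
      (FreeGroup.of 1 * FreeGroup.of 0 * (FreeGroup.of 1)⁻¹ * (FreeGroup.of 0 ^ n)⁻¹)) = 1 :=
    PresentedGroup.one_of_mem rfl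
  simp only [map_mul, map_inv, map_zpow] at h
  exact mul_inv_eq_one.1 h

/-- An abstract version: `G` generated by `a`, `t` with `t a t⁻¹ = aⁿ`. -/
lemma comm_form {G : Type*} [Group G] (a t : G) (n : ℤ) (hrel : t * a * t⁻¹ = a ^ n)
    (hgen : Subgroup.closure {a, t} = ⊤) (g : G) (hg : Abelianization.of g = 1) :
    ∃ y, g = t * y * t⁻¹ * y⁻¹ := by
  have hk : ∀ k : ℤ, t * a ^ k * t⁻¹ = a ^ (n * k) := by
    intro k
    rw [← conj_zpow, hrel, zpow_mul]
  have hk' : ∀ k : ℤ, a ^ k = t⁻¹ * a ^ (n * k) * t := by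
    intro k
    rw [← hk]; group
  -- elements of level `i`
  let P : ℕ → ℤ → G := fun i k => (t ^ i)⁻¹ * a ^ k * t ^ i
  have hP : ∀ (i : ℕ) (k : ℤ), P i k = P (i + 1) (n * k) := by
    intro i k
    simp only [P]
    rw [hk' k, pow_succ' t i]
    group
  have hPj : ∀ (j i : ℕ) (k : ℤ), ∃ k', P i k = P (i + j) k' := by
    intro j
    induction j with
    | zero => intro i k; exact ⟨k, rfl⟩
    | succ j ih =>
      intro i k
      obtain ⟨k', hk'⟩ := ih i k
      exact ⟨n * k', by rw [hk', hP]; rfl⟩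
  have hPmul : ∀ (i : ℕ) (k l : ℤ), P i k * P i l = P i (k + l) := by
    intro i k l
    simp only [P, zpow_add]
    group
  have hcommon : ∀ (i j : ℕ) (k l : ℤ), ∃ m k' l', P i k = P m k' ∧ P j l = P m l' := by
    intro i j k l
    obtain ⟨k', h1⟩ := hPj j i k
    obtain ⟨l', h2⟩ := hPj i j l
    exact ⟨i + j, k', l', h1, by rw [h2, add_comm]⟩
  let A : Subgroup G :=
    { carrier := {g | ∃ (i : ℕ) (k : ℤ), g = P i k}
      one_mem' := ⟨0, 0, by simp [P]⟩
      inv_mem' := by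
        rintro _ ⟨i, k, rfl⟩
        exact ⟨i, -k, by simp [P, mul_assoc]⟩
      mul_mem' := by
        rintro _ _ ⟨i, k, rfl⟩ ⟨j, l, rfl⟩
        obtain ⟨m, k', l', h1, h2⟩ := hcommon i j k l
        exact ⟨m, k' + l', by rw [h1, h2, hPmul]⟩ }
  have hAcomm : ∀ x ∈ A, ∀ y ∈ A, x * y = y * x := by
    rintro _ ⟨i, k, rfl⟩ _ ⟨j, l, rfl⟩
    obtain ⟨m, k', l', h1, h2⟩ := hcommon i j k l
    rw [h1, h2, hPmul, hPmul, add_comm]
  have hAt : ∀ x ∈ A, t * x * t⁻¹ ∈ A := by
    rintro _ ⟨i, k, rfl⟩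
    refine ⟨i, n * k, ?_⟩
    simp only [P]
    rw [← hk k]
    have : t * (t ^ i)⁻¹ = (t ^ i)⁻¹ * t := by
      rw [← zpow_natCast, ← zpow_neg]; group
    calc t * ((t ^ i)⁻¹ * a ^ k * t ^ i) * t⁻¹ = (t * (t ^ i)⁻¹) * a ^ k * (t ^ i * t⁻¹) := by group
      _ = ((t ^ i)⁻¹ * t) * a ^ k * (t ^ i * t⁻¹) := by rw [this]
      _ = _ := by group
  have hAt' : ∀ x ∈ A, t⁻¹ * x * t ∈ A := by
    rintro _ ⟨i, k, rfl⟩
    refine ⟨i + 1, k, ?_⟩
    simp only [P, pow_succ]
    group
  have haA : a ∈ A := ⟨0, 1, by simp [P]⟩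
  have hAj : ∀ (j : ℤ), ∀ x ∈ A, t ^ j * x * (t ^ j)⁻¹ ∈ A := by
    intro j
    induction j using Int.induction_on with
    | zero => intro x hx; simpa using hx
    | succ j ih =>
      intro x hx
      have h1 := hAt _ (ih x hx)
      have h2 : t * (t ^ (j : ℤ) * x * (t ^ (j : ℤ))⁻¹) * t⁻¹ =
          t ^ ((j : ℤ) + 1) * x * (t ^ ((j : ℤ) + 1))⁻¹ := by
        rw [add_comm, zpow_add, zpow_one]; group
      rwa [h2] at h1
    | pred j ih =>
      intro x hx
      have h1 := hAt' _ (ih x hx)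
      have h2 : t⁻¹ * (t ^ (-(j : ℤ)) * x * (t ^ (-(j : ℤ)))⁻¹) * t =
          t ^ (-(j : ℤ) - 1) * x * (t ^ (-(j : ℤ) - 1))⁻¹ := by
        rw [sub_eq_add_neg, add_comm, zpow_add, zpow_neg_one]; group
      rwa [h2] at h1
  -- every element is `α t^j`
  have hform : ∀ g : G, ∃ α ∈ A, ∃ j : ℤ, g = α * t ^ j := by
    let C : Subgroup G :=
      { carrier := {g | ∃ α ∈ A, ∃ j : ℤ, g = α * t ^ j}
        one_mem' := ⟨1, A.one_mem, 0, by simp⟩
        inv_mem' := by
          rintro _ ⟨α, hα, j, rfl⟩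
          refine ⟨t ^ (-j) * α⁻¹ * (t ^ (-j))⁻¹, hAj (-j) _ (A.inv_mem hα), -j, ?_⟩
          group
        mul_mem' := by
          rintro _ _ ⟨α, hα, j, rfl⟩ ⟨β, hβ, l, rfl⟩
          refine ⟨α * (t ^ j * β * (t ^ j)⁻¹), A.mul_mem hα (hAj j _ hβ), j + l, ?_⟩
          rw [zpow_add]
          group }
    have hC : C = ⊤ := by
      rw [eq_top_iff, ← hgen, Subgroup.closure_le]
      rintro x (rfl | rfl)
      · exact ⟨x, haA, 0, by simp⟩
      · exact ⟨1, A.one_mem, 1, by simp⟩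
    intro g
    have : g ∈ C := by rw [hC]; trivial
    exact this
  -- the set of commutators `[t, α]`
  let B : Subgroup G :=
    { carrier := {g | ∃ α ∈ A, g = t * α * t⁻¹ * α⁻¹}
      one_mem' := ⟨1, A.one_mem, by simp⟩
      inv_mem' := by
        rintro _ ⟨α, hα, rfl⟩
        refine ⟨α⁻¹, A.inv_mem hα, ?_⟩
        have h1 := hAcomm _ (hAt _ (A.inv_mem hα)) _ hα
        calc (t * α * t⁻¹ * α⁻¹)⁻¹ = α * (t * α⁻¹ * t⁻¹) := by group
          _ = (t * α⁻¹ * t⁻¹) * α := h1.symm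
          _ = _ := by group
      mul_mem' := by
        rintro _ _ ⟨α, hα, rfl⟩ ⟨β, hβ, rfl⟩
        refine ⟨α * β, A.mul_mem hα hβ, ?_⟩
        have h1 := hAcomm _ (A.mul_mem (hAt _ hβ) (A.inv_mem hβ)) _ (A.inv_mem hα)
        calc (t * α * t⁻¹ * α⁻¹) * (t * β * t⁻¹ * β⁻¹)
            = (t * α * t⁻¹) * (α⁻¹ * (t * β * t⁻¹ * β⁻¹)) := by group
          _ = (t * α * t⁻¹) * ((t * β * t⁻¹ * β⁻¹) * α⁻¹) := by rw [← h1]
          _ = _ := by group }
  have hBA : ∀ x ∈ B, x ∈ A := by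
    rintro _ ⟨α, hα, rfl⟩
    exact A.mul_mem (hAt _ hα) (A.inv_mem hα)
  have hBt : ∀ x ∈ B, t * x * t⁻¹ ∈ B := by
    rintro _ ⟨α, hα, rfl⟩
    refine ⟨t * α * t⁻¹, hAt _ hα, ?_⟩
    group
  have hBt' : ∀ x ∈ B, t⁻¹ * x * t ∈ B := by
    rintro _ ⟨α, hα, rfl⟩
    refine ⟨t⁻¹ * α * t, hAt' _ hα, ?_⟩
    group
  have hBj : ∀ (j : ℤ), ∀ x ∈ B, t ^ j * x * (t ^ j)⁻¹ ∈ B := by
    intro j
    induction j using Int.induction_on with
    | zero => intro x hx; simpa using hx
    | succ j ih =>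
      intro x hx
      have h1 := hBt _ (ih x hx)
      have h2 : t * (t ^ (j : ℤ) * x * (t ^ (j : ℤ))⁻¹) * t⁻¹ =
          t ^ ((j : ℤ) + 1) * x * (t ^ ((j : ℤ) + 1))⁻¹ := by
        rw [add_comm, zpow_add, zpow_one]; group
      rwa [h2] at h1
    | pred j ih =>
      intro x hx
      have h1 := hBt' _ (ih x hx)
      have h2 : t⁻¹ * (t ^ (-(j : ℤ)) * x * (t ^ (-(j : ℤ)))⁻¹) * t =
          t ^ (-(j : ℤ) - 1) * x * (t ^ (-(j : ℤ) - 1))⁻¹ := by
        rw [sub_eq_add_neg, add_comm, zpow_add, zpow_neg_one]; group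
      rwa [h2] at h1
  haveI hBn : B.Normal := by
    constructor
    intro x hx g
    obtain ⟨α, hα, j, rfl⟩ := hform g
    have h1 := hBj j x hx
    have h2 := hAcomm _ (hBA _ h1) _ hα
    have h3 : α * t ^ j * x * (α * t ^ j)⁻¹ = t ^ j * x * (t ^ j)⁻¹ := by
      calc α * t ^ j * x * (α * t ^ j)⁻¹ = α * (t ^ j * x * (t ^ j)⁻¹) * α⁻¹ := by group
        _ = (t ^ j * x * (t ^ j)⁻¹) * α * α⁻¹ := by rw [h2]
        _ = _ := by group
    rw [h3]
    exact h1
  -- the quotient is commutative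
  have hq1 : ∀ α ∈ A, Commute (t : G ⧸ B) (α : G ⧸ B) := by
    intro α hα
    have h1 : ((t * α * t⁻¹ * α⁻¹ : G) : G ⧸ B) = 1 := by
      rw [QuotientGroup.eq_one_iff]; exact ⟨α, hα, rfl⟩
    have h2 : (t : G ⧸ B) * α * (t : G ⧸ B)⁻¹ * (α : G ⧸ B)⁻¹ = 1 := h1
    rw [mul_inv_eq_one, mul_inv_eq_iff_eq_mul] at h2
    exact h2
  have hq2 : ∀ α ∈ A, ∀ β ∈ A, Commute (α : G ⧸ B) (β : G ⧸ B) := by
    intro α hα β hβ
    change ((α * β : G) : G ⧸ B) = ((β * α : G) : G ⧸ B)
    rw [hAcomm α hα β hβ]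
  have hq : ∀ g h : G, Commute (g : G ⧸ B) (h : G ⧸ B) := by
    intro g h
    obtain ⟨α, hα, j, rfl⟩ := hform g
    obtain ⟨β, hβ, l, rfl⟩ := hform h
    have e1 : ((α * t ^ j : G) : G ⧸ B) = (α : G ⧸ B) * (t : G ⧸ B) ^ j := by
      rw [QuotientGroup.mk_mul, QuotientGroup.mk_zpow]
    have e2 : ((β * t ^ l : G) : G ⧸ B) = (β : G ⧸ B) * (t : G ⧸ B) ^ l := by
      rw [QuotientGroup.mk_mul, QuotientGroup.mk_zpow]
    rw [e1, e2]
    have c1 := hq2 α hα β hβ
    have c2 := ((hq1 β hβ).zpow_left j)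
    have c3 := ((hq1 α hα).zpow_left l).symm
    have c4 : Commute ((t : G ⧸ B) ^ j) ((t : G ⧸ B) ^ l) := (Commute.refl _).zpow_zpow j l
    exact (c1.mul_left c2).mul_right (c3.mul_left c4)
  have hcomm : commutator G ≤ B := by
    rw [commutator_def, Subgroup.commutator_le]
    intro g _ h _
    rw [← QuotientGroup.eq_one_iff]
    have := hq g h
    change ((g * h * g⁻¹ * h⁻¹ : G) : G ⧸ B) = 1
    change (g : G ⧸ B) * h * (g : G ⧸ B)⁻¹ * (h : G ⧸ B)⁻¹ = 1
    rw [this.eq]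
    group
  have hg' : g ∈ commutator G := (QuotientGroup.eq_one_iff g).1 hg
  obtain ⟨α, _, h⟩ := hcomm hg'
  exact ⟨α, h⟩

theorem bs_reduction (n : ℤ) : ManyOneReducible (DPab (BSgen n)) (DP (BSgen n)) := by
  apply reduction
  intro g hg
  apply comm_form (BSgen n 0) (BSgen n 1) n bs_rel _ g hg
  rw [← PresentedGroup.closure_range_of (BSRel n)]
  congr 1
  ext x
  simp only [Set.mem_insert_iff, Set.mem_singleton_iff, Set.mem_range, Fin.exists_fin_two]
  constructor
  · rintro (rfl | rfl)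
    · left; rfl
    · right; rfl
  · rintro (rfl | rfl)
    · left; rfl
    · right; rfl

end bs

end Pool.Agent.Lib.MP_184b96_al
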