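import Mathlib

/-!
# Local-global principles for linear systems over `ℤ` and duality over `ℤ/M`
-/

set_option autoImplicit false

namespace Pool.Agent.Lib.MP_184b96_al

lemma circle_torsion (x : AddCircle (1 : ℚ)) : ∃ N : ℕ, 0 < N ∧ N • x = 0 := by
  induction x using QuotientAddGroup.induction_on with
  | H q =>
    refine ⟨q.den, q.pos, ?_⟩
    have h : (q.den • ((q : ℚ) : AddCircle (1 : ℚ))) = (((q.den : ℚ) * q : ℚ) : AddCircle (1 : ℚ)) := by
      rw [← nsmul_eq_mul]; rfl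
    rw [h, Rat.den_mul_eq_num, AddCircle.coe_eq_zero_iff]
    exact ⟨q.num, by simp⟩

lemma separate {X Y : Type*} [AddCommGroup X] [AddCommGroup Y] (f : X →+ Y) (D : Y)
    (h : ¬ ∃ x, f x = D) : ∃ χ : Y →+ AddCircle (1 : ℚ), (∀ x, χ (f x) = 0) ∧ χ D ≠ 0 := by
  have hD : ((D : Y) : Y ⧸ f.range) ≠ 0 := by
    intro h0
    rw [QuotientAddGroup.eq_zero_iff] at h0
    exact h h0
  obtain ⟨c, hc⟩ := CharacterModule.exists_character_apply_ne_zero_of_ne_zero hD
  let c' : (Y ⧸ f.range) →+ AddCircle (1 : ℚ) := c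
  refine ⟨c'.comp (QuotientAddGroup.mk' f.range), ?_, hc⟩
  intro x
  have : (QuotientAddGroup.mk' f.range) (f x) = 0 := by
    rw [QuotientAddGroup.mk'_apply, QuotientAddGroup.eq_zero_iff]
    exact ⟨x, rfl⟩
  rw [AddMonoidHom.comp_apply, this, map_zero]

lemma char_exponent {Y : Type*} [AddCommGroup Y] [Module.Finite ℤ Y]
    (χ : Y →+ AddCircle (1 : ℚ)) : ∃ N : ℕ, 0 < N ∧ ∀ y, N • χ y = 0 := by
  obtain ⟨S, hS⟩ := (Module.finite_def.1 (inferInstance : Module.Finite ℤ Y))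
  choose n hn0 hn using circle_torsion
  refine ⟨∏ s ∈ S, n (χ s), Finset.prod_pos fun s _ => hn0 _, ?_⟩
  have key : ∀ y ∈ Submodule.span ℤ (S : Set Y), (∏ s ∈ S, n (χ s)) • χ y = 0 := by
    intro y hy
    induction hy using Submodule.span_induction with
    | mem s hs =>
      obtain ⟨k, hk⟩ := Finset.dvd_prod_of_mem (fun s => n (χ s)) hs
      rw [hk, mul_comm, mul_smul, hn, smul_zero]
    | zero => simp
    | add x y _ _ hx hy => rw [map_add, smul_add, hx, hy, add_zero]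
    | smul a x _ hx =>
      rw [map_zsmul, smul_comm, hx, smul_zero]
  intro y
  exact key y (by rw [hS]; trivial)

/-- Local-global principle for linear equations. -/
lemma local_global {X Y : Type*} [AddCommGroup X] [AddCommGroup Y] [Module.Finite ℤ Y]
    (f : X →+ Y) (D : Y) (h : ∀ N : ℕ, 0 < N → ∃ x y, f x = D + N • y) : ∃ x, f x = D := by
  by_contra hcon
  obtain ⟨χ, h1, h2⟩ := separate f D hcon
  obtain ⟨N, hN, h3⟩ := char_exponent χ
  obtain ⟨x, y, hxy⟩ := h N hN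
  apply h2
  have h4 := h1 x
  rw [hxy, map_add, map_nsmul, h3, add_zero] at h4
  exact h4

/-- Duality over `ℤ/M`: a subgroup of `(ℤ/M)^K` is cut out by linear forms. -/
lemma duality {X : Type*} [AddCommGroup X] {M K : ℕ} (hM : 0 < M)
    (f : X →+ (Fin K → ZMod M)) (D : Fin K → ZMod M)
    (h : ∀ c : Fin K → ℕ, (∀ i, c i < M) → (∀ x, ∑ i, (c i : ZMod M) * f x i = 0) →
      ∑ i, (c i : ZMod M) * D i = 0) : ∃ x, f x = D := by
  have : NeZero M := ⟨hM.ne'⟩
  by_contra hcon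
  obtain ⟨χ, h1, h2⟩ := separate f D hcon
  -- coefficients
  have hc : ∀ i : Fin K, ∃ c : ℕ, c < M ∧
      (((c : ℚ) / M * 1 : ℚ) : AddCircle (1 : ℚ)) = χ (Pi.single i 1) := by
    intro i
    have : Fact ((0 : ℚ) < 1) := ⟨one_pos⟩
    have h0 : M • χ (Pi.single i 1) = 0 := by
      rw [← map_nsmul, ← Pi.single_nsmul]
      simp
    exact (AddCircle.nsmul_eq_zero_iff hM).1 h0
  choose c hcM hc using hc
  have hχ : ∀ y : Fin K → ZMod M, χ y = (((∑ i, c i * (y i).val : ℕ) : ℚ) / M : ℚ) := by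
    intro y
    have e1 : y = ∑ i, (y i).val • (Pi.single i (1 : ZMod M) : Fin K → ZMod M) := by
      funext j
      rw [Finset.sum_apply]
      simp [Pi.single_apply]
    conv_lhs => rw [e1]
    rw [map_sum]
    have e2 : ∀ i, χ ((y i).val • (Pi.single i (1 : ZMod M) : Fin K → ZMod M)) =
        (((c i * (y i).val : ℕ) : ℚ) / M : ℚ) := by
      intro i
      rw [map_nsmul, ← hc i]
      have : ((y i).val • (((c i : ℚ) / M * 1 : ℚ) : AddCircle (1 : ℚ))) =
          (((y i).val • ((c i : ℚ) / M * 1 : ℚ) : ℚ) : AddCircle (1 : ℚ)) := rfl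
      rw [this]
      congr 1
      rw [nsmul_eq_mul]
      push_cast
      ring
    simp_rw [e2]
    have e3 : ∀ (g : Fin K → ℚ), ∑ i, ((g i : ℚ) : AddCircle (1 : ℚ)) =
        ((∑ i, g i : ℚ) : AddCircle (1 : ℚ)) := fun g =>
      (map_sum (QuotientAddGroup.mk' (AddSubgroup.zmultiples (1 : ℚ))) g _).symm
    rw [e3]
    congr 1
    rw [← Finset.sum_div]
    push_cast
    rfl
  have hcast : ∀ y : Fin K → ZMod M, ((∑ i, c i * (y i).val : ℕ) : ZMod M) =
      ∑ i, (c i : ZMod M) * y i := by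
    intro y
    push_cast
    simp
  have hMQ : (M : ℚ) ≠ 0 := by exact_mod_cast hM.ne'
  have hiff : ∀ y : Fin K → ZMod M, χ y = 0 ↔ ∑ i, (c i : ZMod M) * y i = 0 := by
    intro y
    rw [hχ, AddCircle.coe_eq_zero_iff, ← hcast, ZMod.natCast_eq_zero_iff]
    constructor
    · rintro ⟨n, hn⟩
      rw [zsmul_one, eq_div_iff hMQ] at hn
      have h5 : (n * M : ℤ) = ((∑ i, c i * (y i).val : ℕ) : ℤ) := by exact_mod_cast hn
      have : (M : ℤ) ∣ ((∑ i, c i * (y i).val : ℕ) : ℤ) := ⟨n, by rw [← h5]; ring⟩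
      exact_mod_cast this
    · rintro ⟨n, hn⟩
      refine ⟨n, ?_⟩
      rw [hn, zsmul_one]
      push_cast
      field_simp
  apply h2
  rw [hiff]
  apply h c hcM
  intro x
  rw [← hiff]
  exact h1 x

end Pool.Agent.Lib.MP_184b96_al
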