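import Mathlib
import Pool.Agent.Lib.MP_184b96_al.Defs
import Pool.Agent.Lib.MP_184b96_al.Residual

/-!
# Integer solutions of linear systems with prescribed residues: decidability
-/

set_option autoImplicit false

namespace Pool.Agent.Lib.MP_184b96_al

/-- integer value of a letter (generators have value `1`) -/
def letZ (y : ℕ → ℤ) (a : (ℕ ⊕ Fin 2) × Bool) : ℤ :=
  if a.2 then Sum.elim y (fun _ => 1) a.1 else -Sum.elim y (fun _ => 1) a.1

/-- integer value of a word -/
def linVal (y : ℕ → ℤ) (w : EqWord) : ℤ := (w.map (letZ y)).sum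

lemma linVal_cons (y : ℕ → ℤ) (a : (ℕ ⊕ Fin 2) × Bool) (w : EqWord) :
    linVal y (a :: w) = letZ y a + linVal y w := by simp [linVal]

lemma wordVal_eq_linVal (y : ℕ → ℤ) (w : EqWord) :
    wordVal (fun _ => Multiplicative.ofAdd (1 : ℤ)) (fun j => Multiplicative.ofAdd (y j)) w =
      Multiplicative.ofAdd (linVal y w) := by
  induction w with
  | nil => rfl
  | cons a w ih =>
    rw [wordVal_cons, linVal_cons, ih, ofAdd_add]
    congr 1

/-- value pair of a letter at a list of pairs `(p, n)`, standing for `p - n` -/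
def pv (l : List (ℕ × ℕ)) (a : (ℕ ⊕ Fin 2) × Bool) : ℕ × ℕ :=
  if a.2 then Sum.elim (fun j => l.getD j (0, 0)) (fun _ => (1, 0)) a.1
  else (Sum.elim (fun j => l.getD j (0, 0)) (fun _ => (1, 0)) a.1).swap

/-- value pair of a word -/
def ps (l : List (ℕ × ℕ)) (w : EqWord) : ℕ × ℕ :=
  w.foldr (fun a acc => ((pv l a).1 + acc.1, (pv l a).2 + acc.2)) (0, 0)

/-- the integers coded by a list of pairs -/
def dec (l : List (ℕ × ℕ)) (j : ℕ) : ℤ := ((l.getD j (0, 0)).1 : ℤ) - ((l.getD j (0, 0)).2 : ℤ)

lemma ps_spec (l : List (ℕ × ℕ)) (w : EqWord) :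
    ((ps l w).1 : ℤ) - (ps l w).2 = linVal (dec l) w := by
  induction w with
  | nil => simp [ps, linVal]
  | cons a w ih =>
    rw [linVal_cons, ← ih]
    have : ps l (a :: w) = ((pv l a).1 + (ps l w).1, (pv l a).2 + (ps l w).2) := rfl
    rw [this]
    obtain ⟨a, b⟩ := a
    cases b <;> cases a <;> simp [pv, letZ, dec] <;> ring

lemma primrec_pv : Primrec₂ pv := by
  have h1 : Primrec fun q : List (ℕ × ℕ) × ((ℕ ⊕ Fin 2) × Bool) =>
      (Sum.elim (fun j => q.1.getD j (0, 0)) (fun _ => (1, 0)) q.2.1 : ℕ × ℕ) := by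
    have := Primrec.sumCasesOn (f := fun q : List (ℕ × ℕ) × ((ℕ ⊕ Fin 2) × Bool) => q.2.1)
      (g := fun q j => (q.1.getD j (0, 0) : ℕ × ℕ)) (h := fun _ _ => ((1, 0) : ℕ × ℕ))
      (Primrec.fst.comp Primrec.snd)
      ((Primrec.list_getD (0, 0)).comp (Primrec.fst.comp Primrec.fst) Primrec.snd).to₂
      (Primrec.const (1, 0)).to₂
    refine this.of_eq ?_
    rintro ⟨l, a, b⟩
    cases a <;> rfl
  have h2 : Primrec fun q : List (ℕ × ℕ) × ((ℕ ⊕ Fin 2) × Bool) =>
      (Sum.elim (fun j => q.1.getD j (0, 0)) (fun _ => (1, 0)) q.2.1 : ℕ × ℕ).swap :=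
    (Primrec.snd.pair Primrec.fst).comp h1
  have h3 : PrimrecPred fun q : List (ℕ × ℕ) × ((ℕ ⊕ Fin 2) × Bool) => q.2.2 = true :=
    Primrec.eq.comp (Primrec.snd.comp Primrec.snd) (Primrec.const true)
  exact Primrec.ite h3 h1 h2

lemma primrec_ps : Primrec₂ ps := by
  unfold ps
  have hstep : Primrec₂ fun (q : List (ℕ × ℕ) × EqWord) (z : ((ℕ ⊕ Fin 2) × Bool) × (ℕ × ℕ)) =>
      (((pv q.1 z.1).1 + z.2.1, (pv q.1 z.1).2 + z.2.2) : ℕ × ℕ) := by
    have hp : Primrec fun q : (List (ℕ × ℕ) × EqWord) × (((ℕ ⊕ Fin 2) × Bool) × (ℕ × ℕ)) =>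
        pv q.1.1 q.2.1 :=
      primrec_pv.comp (Primrec.fst.comp Primrec.fst) (Primrec.fst.comp Primrec.snd)
    exact (Primrec.nat_add.comp (Primrec.fst.comp hp)
      (Primrec.fst.comp (Primrec.snd.comp Primrec.snd))).pair
      (Primrec.nat_add.comp (Primrec.snd.comp hp) (Primrec.snd.comp (Primrec.snd.comp Primrec.snd)))
  exact Primrec.list_foldr (f := fun q : List (ℕ × ℕ) × EqWord => q.2)
    (g := fun _ => ((0, 0) : ℕ × ℕ)) Primrec.snd (Primrec.const (0, 0)) hstep

lemma forall_lt' {β : Type*} [Primcodable β] {R : ℕ → β → Prop} (hf : PrimrecRel R) :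
    PrimrecRel fun n y => ∀ x < n, R x y :=
  (hf.forall_mem_list.comp (Primrec.list_range.comp Primrec.fst) Primrec.snd).of_eq (by simp)

/-- a recursively enumerable existential statement -/
lemma re_exists {α β : Type*} [Primcodable α] [Primcodable β] {P : α × β → Prop}
    (hP : ComputablePred P) : REPred fun a => ∃ b, P (a, b) := by
  classical
  have hPd : Computable fun q => decide (P q) := hP.decide
  let f : α → ℕ → Option β := fun a n => (Encodable.decode n : Option β).bind
    fun b => if P (a, b) then some b else none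
  have hf : Computable₂ f := by
    have h1 : Computable fun q : α × ℕ => (Encodable.decode q.2 : Option β) :=
      Computable.decode.comp Computable.snd
    have h2 : Computable₂ fun (q : α × ℕ) (b : β) => (if P (q.1, b) then some b else none : Option β) := by
      have h3 : Computable fun z : (α × ℕ) × β => decide (P (z.1.1, z.2)) :=
        hPd.comp ((Computable.fst.comp Computable.fst).pair Computable.snd)
      have h4 := Computable.cond h3 (Computable.option_some.comp (Computable.snd (α := α × ℕ) (β := β)))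
        (Computable.const (none : Option β))
      refine h4.of_eq ?_
      intro z
      by_cases h : P (z.1.1, z.2) <;> simp [h]
    exact Computable.option_bind h1 h2
  have h := (Partrec.rfindOpt hf).dom_re
  refine h.of_eq ?_
  intro a
  rw [Nat.rfindOpt_dom]
  constructor
  · rintro ⟨n, b, hb⟩
    simp only [f, Option.mem_def, Option.bind_eq_some_iff] at hb
    obtain ⟨b', _, hb'⟩ := hb
    by_cases h : P (a, b')
    · exact ⟨b', h⟩
    · simp [h] at hb'
  · rintro ⟨b, hb⟩
    refine ⟨Encodable.encode b, b, ?_⟩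
    simp [f, hb]

/-! ### variables are bounded by the code -/

lemma encode_lt_of_mem {α : Type*} [Encodable α] {l : List α} {a : α} (h : a ∈ l) :
    Encodable.encode a < Encodable.encode l := by
  induction l with
  | nil => simp at h
  | cons b l ih =>
    rw [Encodable.encode_list_cons]
    rcases List.mem_cons.1 h with rfl | h
    · exact Nat.lt_succ_of_le (Nat.left_le_pair _ _)
    · exact (ih h).trans_le ((Nat.right_le_pair _ _).trans (Nat.le_succ _))

lemma var_lt {T : List EqWord} {w : EqWord} (hw : w ∈ T) {j : ℕ} {b : Bool}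
    (h : (Sum.inl j, b) ∈ w) : j < Encodable.encode T := by
  have h1 := encode_lt_of_mem hw
  have h2 := encode_lt_of_mem h
  have h3 : j ≤ Encodable.encode ((Sum.inl j, b) : (ℕ ⊕ Fin 2) × Bool) := by
    rw [Encodable.encode_prod_val]
    refine le_trans ?_ (Nat.left_le_pair _ _)
    rw [Encodable.encode_inl]
    simp
    omega
  omega

lemma linVal_congr {y y' : ℕ → ℤ} {w : EqWord}
    (h : ∀ j b, (Sum.inl j, b) ∈ w → y j = y' j) : linVal y w = linVal y' w := by
  induction w with
  | nil => rfl
  | cons a w ih =>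
    rw [linVal_cons, linVal_cons, ih fun j b hj => h j b (List.mem_cons_of_mem _ hj)]
    congr 1
    obtain ⟨a, b⟩ := a
    cases a with
    | inl j =>
      have := h j b List.mem_cons_self
      simp [letZ, this]
    | inr i => simp [letZ]

/-! ### the predicate -/

/-- the linear system `T` has an integer solution with residues `r` modulo `M` -/
def Good (M : ℕ) (q : List EqWord × List ℕ) : Prop :=
  ∃ y : ℕ → ℤ, (∀ w ∈ q.1, linVal y w = 0) ∧
    ∀ i < q.2.length, (M : ℤ) ∣ y i - (q.2.getD i 0 : ℕ)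

/-- first check: exact integer solution given by pairs -/
def Chk1 (M : ℕ) (z : (List EqWord × List ℕ) × List (ℕ × ℕ)) : Prop :=
  (∀ w ∈ z.1.1, (ps z.2 w).1 = (ps z.2 w).2) ∧
    ∀ i < z.1.2.length, (z.2.getD i (0, 0)).1 % M =
      (z.1.2.getD i 0 + (z.2.getD i (0, 0)).2) % M

/-- digits of `n` in base `B` -/
def digs (B L n : ℕ) : List ℕ := (List.range L).map fun i => n / B ^ i % B

/-- digits as pairs -/
def digp (B L n : ℕ) : List (ℕ × ℕ) := (List.range L).map fun i => (n / B ^ i % B, 0)

/-- second check: solution modulo `B = M (N+1)` -/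
def Chk2 (M : ℕ) (z : (List EqWord × List ℕ) × (ℕ × List (ℕ × ℕ))) : Prop :=
  (∀ w ∈ z.1.1, (ps z.2.2 w).1 % (M * (z.2.1 + 1)) = (ps z.2.2 w).2 % (M * (z.2.1 + 1))) ∧
    ∀ i < z.1.2.length, (z.2.2.getD i (0, 0)).1 % M =
      (z.1.2.getD i 0 + (z.2.2.getD i (0, 0)).2) % M

lemma primrec_chk1 (M : ℕ) : PrimrecPred (Chk1 M) := by
  unfold Chk1
  apply PrimrecPred.and
  · have hR : PrimrecRel fun (w : EqWord) (l : List (ℕ × ℕ)) => (ps l w).1 = (ps l w).2 := by
      have hp : Primrec₂ fun (w : EqWord) (l : List (ℕ × ℕ)) => ps l w := primrec_ps.swap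
      exact Primrec.eq.comp₂ (Primrec.fst.comp₂ hp) (Primrec.snd.comp₂ hp)
    exact hR.forall_mem_list.comp (Primrec.fst.comp Primrec.fst) Primrec.snd
  · have hR : PrimrecRel fun (i : ℕ) (z : List ℕ × List (ℕ × ℕ)) =>
        (z.2.getD i (0, 0)).1 % M = (z.1.getD i 0 + (z.2.getD i (0, 0)).2) % M := by
      have h1 : Primrec₂ fun (i : ℕ) (z : List ℕ × List (ℕ × ℕ)) => z.2.getD i (0, 0) :=
        (Primrec.list_getD (0, 0)).comp₂ (Primrec.snd.comp₂ Primrec₂.right) Primrec₂.left
      have h2 : Primrec₂ fun (i : ℕ) (z : List ℕ × List (ℕ × ℕ)) => z.1.getD i 0 :=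
        (Primrec.list_getD 0).comp₂ (Primrec.fst.comp₂ Primrec₂.right) Primrec₂.left
      exact Primrec.eq.comp₂ (Primrec.nat_mod.comp₂ (Primrec.fst.comp₂ h1) (Primrec₂.const M))
        (Primrec.nat_mod.comp₂ (Primrec.nat_add.comp₂ h2 (Primrec.snd.comp₂ h1)) (Primrec₂.const M))
    have h3 := forall_lt' hR
    exact h3.comp (f := fun z : (List EqWord × List ℕ) × List (ℕ × ℕ) => z.1.2.length)
      (g := fun z : (List EqWord × List ℕ) × List (ℕ × ℕ) => (z.1.2, z.2))
      (Primrec.list_length.comp (Primrec.snd.comp Primrec.fst))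
      ((Primrec.snd.comp Primrec.fst).pair Primrec.snd)

lemma primrec_chk2 (M : ℕ) : PrimrecPred (Chk2 M) := by
  unfold Chk2
  apply PrimrecPred.and
  · have hR : PrimrecRel fun (w : EqWord) (l : ℕ × List (ℕ × ℕ)) =>
        (ps l.2 w).1 % (M * (l.1 + 1)) = (ps l.2 w).2 % (M * (l.1 + 1)) := by
      have hp : Primrec₂ fun (w : EqWord) (l : ℕ × List (ℕ × ℕ)) => ps l.2 w :=
        primrec_ps.comp₂ (Primrec.snd.comp₂ Primrec₂.right) Primrec₂.left
      have hB : Primrec₂ fun (w : EqWord) (l : ℕ × List (ℕ × ℕ)) => M * (l.1 + 1) :=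
        Primrec.nat_mul.comp₂ (Primrec₂.const M)
          (Primrec.succ.comp₂ (Primrec.fst.comp₂ Primrec₂.right))
      exact Primrec.eq.comp₂ (Primrec.nat_mod.comp₂ (Primrec.fst.comp₂ hp) hB)
        (Primrec.nat_mod.comp₂ (Primrec.snd.comp₂ hp) hB)
    exact PrimrecRel.comp
      (f := fun z : (List EqWord × List ℕ) × (ℕ × List (ℕ × ℕ)) => z.1.1)
      (g := fun z : (List EqWord × List ℕ) × (ℕ × List (ℕ × ℕ)) => z.2) hR.forall_mem_list
      (Primrec.fst.comp Primrec.fst) Primrec.snd
  · have hR : PrimrecRel fun (i : ℕ) (z : List ℕ × List (ℕ × ℕ)) =>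
        (z.2.getD i (0, 0)).1 % M = (z.1.getD i 0 + (z.2.getD i (0, 0)).2) % M := by
      have h1 : Primrec₂ fun (i : ℕ) (z : List ℕ × List (ℕ × ℕ)) => z.2.getD i (0, 0) :=
        (Primrec.list_getD (0, 0)).comp₂ (Primrec.snd.comp₂ Primrec₂.right) Primrec₂.left
      have h2 : Primrec₂ fun (i : ℕ) (z : List ℕ × List (ℕ × ℕ)) => z.1.getD i 0 :=
        (Primrec.list_getD 0).comp₂ (Primrec.fst.comp₂ Primrec₂.right) Primrec₂.left
      exact Primrec.eq.comp₂ (Primrec.nat_mod.comp₂ (Primrec.fst.comp₂ h1) (Primrec₂.const M))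
        (Primrec.nat_mod.comp₂ (Primrec.nat_add.comp₂ h2 (Primrec.snd.comp₂ h1)) (Primrec₂.const M))
    have h3 := forall_lt' hR
    exact h3.comp
      (f := fun z : (List EqWord × List ℕ) × (ℕ × List (ℕ × ℕ)) => z.1.2.length)
      (g := fun z : (List EqWord × List ℕ) × (ℕ × List (ℕ × ℕ)) => (z.1.2, z.2.2))
      (Primrec.list_length.comp (Primrec.snd.comp Primrec.fst))
      ((Primrec.snd.comp Primrec.fst).pair (Primrec.snd.comp Primrec.snd))

lemma primrec_pow : Primrec₂ ((· ^ ·) : ℕ → ℕ → ℕ) := Primrec₂.unpaired'.1 Nat.Primrec.pow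

lemma primrec_digs : Primrec fun z : ℕ × ℕ × ℕ => digs z.1 z.2.1 z.2.2 := by
  unfold digs
  refine Primrec.list_map (Primrec.list_range.comp (Primrec.fst.comp Primrec.snd)) ?_
  refine Primrec₂.mk ?_
  exact Primrec.nat_mod.comp (Primrec.nat_div.comp
    (Primrec.snd.comp (Primrec.snd.comp Primrec.fst))
    (primrec_pow.comp (Primrec.fst.comp Primrec.fst) Primrec.snd)) (Primrec.fst.comp Primrec.fst)

lemma primrec_digp : Primrec fun z : ℕ × ℕ × ℕ => digp z.1 z.2.1 z.2.2 := by
  unfold digp
  refine Primrec.list_map (Primrec.list_range.comp (Primrec.fst.comp Primrec.snd)) ?_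
  refine Primrec₂.mk ?_
  exact (Primrec.nat_mod.comp (Primrec.nat_div.comp
    (Primrec.snd.comp (Primrec.snd.comp Primrec.fst))
    (primrec_pow.comp (Primrec.fst.comp Primrec.fst) Primrec.snd))
    (Primrec.fst.comp Primrec.fst)).pair (Primrec.const 0)

/-- number of digits needed -/
def len (q : List EqWord × List ℕ) : ℕ := Encodable.encode q.1 + q.2.length

lemma primrec_len : Primrec len :=
  Primrec.nat_add.comp (Primrec.encode.comp Primrec.fst) (Primrec.list_length.comp Primrec.snd)

/-- no solution modulo `M (N+1)` -/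
def NoSol (M : ℕ) (z : (List EqWord × List ℕ) × ℕ) : Prop :=
  ∀ n < (M * (z.2 + 1)) ^ len z.1, ¬ Chk2 M (z.1, (z.2, digp (M * (z.2 + 1)) (len z.1) n))

lemma primrec_noSol (M : ℕ) : PrimrecPred (NoSol M) := by
  unfold NoSol
  have hR : PrimrecRel fun (n : ℕ) (z : (List EqWord × List ℕ) × ℕ) =>
      ¬ Chk2 M (z.1, (z.2, digp (M * (z.2 + 1)) (len z.1) n)) := by
    change PrimrecPred fun q : ℕ × ((List EqWord × List ℕ) × ℕ) =>
      ¬ Chk2 M (q.2.1, (q.2.2, digp (M * (q.2.2 + 1)) (len q.2.1) q.1))
    apply PrimrecPred.not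
    refine (primrec_chk2 M).comp ?_
    refine (Primrec.fst.comp Primrec.snd).pair ((Primrec.snd.comp Primrec.snd).pair ?_)
    exact primrec_digp.comp ((Primrec.nat_mul.comp (Primrec.const M)
      (Primrec.succ.comp (Primrec.snd.comp Primrec.snd))).pair
      ((primrec_len.comp (Primrec.fst.comp Primrec.snd)).pair Primrec.fst))
  have h3 := forall_lt' hR
  exact h3.comp
    (f := fun z : (List EqWord × List ℕ) × ℕ => (M * (z.2 + 1)) ^ len z.1)
    (g := fun z : (List EqWord × List ℕ) × ℕ => z)
    (primrec_pow.comp (Primrec.nat_mul.comp (Primrec.const M)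
      (Primrec.succ.comp Primrec.snd)) (primrec_len.comp Primrec.fst))
    Primrec.id

/-! ### correctness of the checks -/

lemma exists_digits (B : ℕ) (s : ℕ → ℕ) (hs : ∀ i, s i < B) (L : ℕ) :
    ∃ n < B ^ L, ∀ i < L, n / B ^ i % B = s i := by
  have hB : 0 < B := (Nat.zero_le _).trans_lt (hs 0)
  induction L with
  | zero => exact ⟨0, by simp, by simp⟩
  | succ L ih =>
    obtain ⟨n, hn, h⟩ := ih
    refine ⟨n + s L * B ^ L, ?_, ?_⟩
    · have h1 : s L + 1 ≤ B := hs L
      calc n + s L * B ^ L < B ^ L + s L * B ^ L := by omega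
        _ = (s L + 1) * B ^ L := by ring
        _ ≤ B * B ^ L := Nat.mul_le_mul_right _ h1
        _ = B ^ (L + 1) := by ring
    · intro i hi
      rcases Nat.lt_succ_iff_lt_or_eq.1 hi with hi' | rfl
      · have e0 : B ^ L = B ^ (L - i - 1) * B * B ^ i := by
          rw [← pow_succ, ← pow_add]; congr 1; omega
        have e1 : s L * B ^ L = (s L * B ^ (L - i - 1) * B) * B ^ i := by
          rw [e0]; ring
        rw [e1, Nat.add_mul_div_right _ _ (by positivity), Nat.add_mul_mod_self_right]
        exact h i hi'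
      · rw [Nat.add_mul_div_right _ _ (by positivity), Nat.div_eq_of_lt hn, zero_add,
          Nat.mod_eq_of_lt (hs _)]

lemma digp_getD (B L n i : ℕ) (hi : i < L) :
    (digp B L n).getD i (0, 0) = (n / B ^ i % B, 0) := by
  simp [digp, List.getD, hi]

lemma mod_eq_iff (M a b : ℕ) : a % M = b % M ↔ (M : ℤ) ∣ (a : ℤ) - b := by
  constructor
  · intro h
    have : a ≡ b [MOD M] := h
    have := (Nat.modEq_iff_dvd.1 this.symm)
    exact this
  · intro h
    exact (Nat.modEq_iff_dvd.2 h).symm

lemma chk1_good {M : ℕ} {q : List EqWord × List ℕ} {l : List (ℕ × ℕ)} (h : Chk1 M (q, l)) :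
    Good M q := by
  refine ⟨dec l, ?_, ?_⟩
  · intro w hw
    rw [← ps_spec, h.1 w hw, sub_self]
  · intro i hi
    have h1 := h.2 i hi
    simp only at h1
    rw [mod_eq_iff] at h1
    push_cast at h1
    have : dec l i - (q.2.getD i 0 : ℕ) =
      ((l.getD i (0, 0)).1 : ℤ) - ((q.2.getD i 0 : ℕ) + ((l.getD i (0, 0)).2 : ℤ)) := by
      rw [dec]; ring
    rw [this]
    exact h1

lemma good_iff_chk1 (M : ℕ) (q : List EqWord × List ℕ) :
    Good M q ↔ ∃ l : List (ℕ × ℕ), Chk1 M (q, l) := by
  constructor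
  · rintro ⟨y, h1, h2⟩
    let l : List (ℕ × ℕ) := (List.range (len q)).map fun i => ((y i).toNat, (-(y i)).toNat)
    have hl : ∀ i < len q, l.getD i (0, 0) = ((y i).toNat, (-(y i)).toNat) := by
      intro i hi
      simp [l, List.getD, hi]
    have hdec : ∀ i < len q, dec l i = y i := by
      intro i hi
      rw [dec, hl i hi]
      simp only
      omega
    refine ⟨l, ?_, ?_⟩
    · intro w hw
      have h3 : linVal (dec l) w = linVal y w := by
        apply linVal_congr
        intro j b hj
        apply hdec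
        exact (var_lt hw hj).trans_le (Nat.le_add_right _ _)
      have h4 := ps_spec l w
      rw [h3, h1 w hw] at h4
      simp only
      omega
    · intro i hi
      simp only at hi ⊢
      have hi' : i < len q := hi.trans_le (Nat.le_add_left _ _)
      rw [mod_eq_iff, hl i hi']
      have := h2 i hi
      have e : (((y i).toNat : ℕ) : ℤ) - ((q.2.getD i 0 + (-(y i)).toNat : ℕ) : ℤ) =
          y i - (q.2.getD i 0 : ℕ) := by
        push_cast
        omega
      simp only
      rw [e]
      exact this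
  · rintro ⟨l, h⟩
    exact chk1_good h

/-- homogeneous part -/
def linHom (y : ℕ → ℤ) (w : EqWord) : ℤ :=
  (w.map fun a => if a.2 then Sum.elim y (fun _ => 0) a.1 else -Sum.elim y (fun _ => 0) a.1).sum

lemma linVal_split (y : ℕ → ℤ) (w : EqWord) : linVal y w = linHom y w + linVal 0 w := by
  induction w with
  | nil => simp [linVal, linHom]
  | cons a w ih =>
    rw [linVal_cons, linVal_cons, ih]
    have : linHom y (a :: w) = (if a.2 then Sum.elim y (fun _ => 0) a.1
      else -Sum.elim y (fun _ => 0) a.1) + linHom y w := by simp [linHom]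
    rw [this]
    obtain ⟨a, b⟩ := a
    cases b <;> cases a <;> simp [letZ] <;> ring

lemma linHom_zero (w : EqWord) : linHom 0 w = 0 := by
  have := linVal_split 0 w
  omega

lemma linHom_add (y z : ℕ → ℤ) (w : EqWord) : linHom (y + z) w = linHom y w + linHom z w := by
  induction w with
  | nil => simp [linHom]
  | cons a w ih =>
    have h : ∀ y, linHom y (a :: w) = (if a.2 then Sum.elim y (fun _ => 0) a.1
      else -Sum.elim y (fun _ => 0) a.1) + linHom y w := by intro y; simp [linHom]
    rw [h, h, h, ih]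
    obtain ⟨a, b⟩ := a
    cases b <;> cases a <;> simp <;> ring

lemma good_of_local {M : ℕ} (q : List EqWord × List ℕ)
    (h : ∀ N : ℕ, ∃ l : List (ℕ × ℕ), Chk2 M (q, (N, l))) : Good M q := by
  let f : (ℕ → ℤ) × (Fin q.2.length → ℤ) →+ (Fin q.1.length → ℤ) × (Fin q.2.length → ℤ) :=
    { toFun := fun x => (fun i => linHom x.1 (q.1.get i), fun i => x.1 i - M * x.2 i)
      map_zero' := by
        ext i
        · simp [linHom_zero]
        · simp
      map_add' := by
        intro x x'
        ext i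
        · simp [linHom_add]
        · simp; ring }
  let D : (Fin q.1.length → ℤ) × (Fin q.2.length → ℤ) :=
    (fun i => -linVal 0 (q.1.get i), fun i => ((q.2.getD i 0 : ℕ) : ℤ))
  obtain ⟨⟨y, z⟩, hx⟩ := local_global f D (by
    intro N hN
    obtain ⟨l, h1, h2⟩ := h (N - 1)
    simp only at h1 h2
    have hN1 : N - 1 + 1 = N := by omega
    rw [hN1] at h1
    have hw : ∀ w ∈ q.1, ((M * N : ℕ) : ℤ) ∣ linVal (dec l) w := by
      intro w hw
      rw [← ps_spec, ← mod_eq_iff]
      exact h1 w hw
    have hr : ∀ i < q.2.length, (M : ℤ) ∣ dec l i - (q.2.getD i 0 : ℕ) := by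
      intro i hi
      have h3 := h2 i hi
      rw [mod_eq_iff] at h3
      push_cast at h3
      have : dec l i - (q.2.getD i 0 : ℕ) =
        ((l.getD i (0, 0)).1 : ℤ) - ((q.2.getD i 0 : ℕ) + ((l.getD i (0, 0)).2 : ℤ)) := by
        rw [dec]; ring
      rw [this]
      exact h3
    choose z hz using fun i : Fin q.2.length => hr i i.2
    choose c hc using fun i : Fin q.1.length => hw (q.1.get i) (List.get_mem _ _)
    refine ⟨(dec l, z), (fun i => M * c i, 0), ?_⟩
    ext i
    · have h4 := hc i
      have h5 := linVal_split (dec l) (q.1.get i)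
      simp only [f, D, AddMonoidHom.coe_mk, ZeroHom.coe_mk, Prod.fst_add, Prod.smul_fst,
        Pi.add_apply, Pi.smul_apply]
      simp only [nsmul_eq_mul]
      push_cast at h4
      linear_combination h4 - h5
    · have h4 := hz i
      simp only [f, D, AddMonoidHom.coe_mk, ZeroHom.coe_mk, Prod.snd_add, Prod.smul_snd,
        Pi.add_apply, Pi.zero_apply, smul_zero, add_zero]
      linear_combination h4)
  have e1 := congrArg Prod.fst hx
  have e2 := congrArg Prod.snd hx
  simp only [f, D, AddMonoidHom.coe_mk, ZeroHom.coe_mk] at e1 e2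
  refine ⟨y, ?_, ?_⟩
  · intro w hw
    obtain ⟨i, rfl⟩ := List.get_of_mem hw
    have := congrFun e1 i
    rw [linVal_split, this]; ring
  · intro i hi
    have := congrFun e2 ⟨i, hi⟩
    exact ⟨z ⟨i, hi⟩, by linear_combination this⟩

lemma not_good_iff {M : ℕ} (hM : 0 < M) (q : List EqWord × List ℕ) :
    ¬ Good M q ↔ ∃ N, NoSol M (q, N) := by
  rw [not_iff_comm]
  push Not
  constructor
  · intro h
    apply good_of_local
    intro N
    have h1 := h N
    simp only [NoSol] at h1
    push Not at h1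
    obtain ⟨n, _, hn⟩ := h1
    exact ⟨_, hn⟩
  · rintro ⟨y, h1, h2⟩ N
    simp only [NoSol]
    push Not
    set B := M * (N + 1) with hB
    have hB0 : 0 < B := by positivity
    have hBz : (B : ℤ) ≠ 0 := by exact_mod_cast hB0.ne'
    have hBpos : (0 : ℤ) < B := by exact_mod_cast hB0
    obtain ⟨n, hn, hd⟩ := exists_digits B (fun i => (y i % B).toNat) (by
      intro i
      have h3 := Int.emod_lt_of_pos (y i) hBpos
      have h4 := Int.emod_nonneg (y i) hBz
      omega) (len q)
    refine ⟨n, hn, ?_⟩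
    have hget : ∀ i < len q, (digp B (len q) n).getD i (0, 0) = ((y i % B).toNat, 0) := by
      intro i hi
      rw [digp_getD _ _ _ _ hi, hd i hi]
    -- difference is divisible by B
    have hdiv : ∀ i < len q, (B : ℤ) ∣ dec (digp B (len q) n) i - y i := by
      intro i hi
      rw [dec, hget i hi]
      have h4 := Int.emod_nonneg (y i) hBz
      simp only [Nat.cast_zero, sub_zero, Int.toNat_of_nonneg h4]
      have := Int.emod_add_mul_ediv (y i) B
      exact ⟨-(y i / B), by linear_combination this⟩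
    have hlin : ∀ w ∈ q.1, (B : ℤ) ∣ linVal (dec (digp B (len q) n)) w - linVal y w := by
      intro w hw
      have : ∀ v : EqWord, (∀ j b, (Sum.inl j, b) ∈ v → j < len q) →
          (B : ℤ) ∣ linVal (dec (digp B (len q) n)) v - linVal y v := by
        intro v
        induction v with
        | nil => intro _; simp [linVal]
        | cons a v ih =>
          intro hv
          rw [linVal_cons, linVal_cons]
          have h3 := ih fun j b hj => hv j b (List.mem_cons_of_mem _ hj)
          have h4 : (B : ℤ) ∣ letZ (dec (digp B (len q) n)) a - letZ y a := by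
            obtain ⟨a, b⟩ := a
            cases a with
            | inl j =>
              have h5 := hdiv j (hv j b List.mem_cons_self)
              cases b
              · simp only [letZ, Sum.elim_inl, Bool.false_eq_true, if_false]
                rw [show -dec (digp B (len q) n) j - -y j = -(dec (digp B (len q) n) j - y j) by ring]
                exact (dvd_neg).2 h5
              · simpa [letZ] using h5
            | inr i => simp [letZ]
          have := dvd_add h4 h3
          rwa [show letZ (dec (digp B (len q) n)) a - letZ y a +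
            (linVal (dec (digp B (len q) n)) v - linVal y v) =
            letZ (dec (digp B (len q) n)) a + linVal (dec (digp B (len q) n)) v -
            (letZ y a + linVal y v) by ring] at this
      apply this
      intro j b hj
      exact (var_lt hw hj).trans_le (Nat.le_add_right _ _)
    refine ⟨?_, ?_⟩
    · intro w hw
      simp only at hw ⊢
      rw [mod_eq_iff, ps_spec]
      have := hlin w hw
      rwa [h1 w hw, sub_zero] at this
    · intro i hi
      simp only at hi ⊢
      have hi' : i < len q := hi.trans_le (Nat.le_add_left _ _)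
      rw [mod_eq_iff]
      have h3 := hdiv i hi'
      have h4 := h2 i hi
      have h5 : (M : ℤ) ∣ (B : ℤ) := ⟨(N + 1 : ℤ), by rw [hB]; push_cast; ring⟩
      have h6 := dvd_add (h5.trans h3) h4
      rw [dec] at h6
      have e : (((digp B (len q) n).getD i (0, 0)).1 : ℤ) -
          ((q.2.getD i 0 + ((digp B (len q) n).getD i (0, 0)).2 : ℕ) : ℤ) =
          (((digp B (len q) n).getD i (0, 0)).1 : ℤ) - (((digp B (len q) n).getD i (0, 0)).2 : ℤ) - y i +
          (y i - (q.2.getD i 0 : ℕ)) := by push_cast; ring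
      rw [e]
      exact h6

theorem computable_good {M : ℕ} (hM : 0 < M) : ComputablePred (Good M) := by
  rw [ComputablePred.computable_iff_re_compl_re']
  constructor
  · refine (re_exists (P := fun z : (List EqWord × List ℕ) × List (ℕ × ℕ) => Chk1 M z)
      (primrec_chk1 M).computablePred).of_eq ?_
    intro q
    rw [good_iff_chk1]
  · refine (re_exists (P := fun z : (List EqWord × List ℕ) × ℕ => NoSol M z)
      (primrec_noSol M).computablePred).of_eq ?_
    intro q
    rw [not_good_iff hM]

end Pool.Agent.Lib.MP_184b96_al
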