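import Mathlib
import Pool.Agent.Lib.MP_184b96_al.Defs
import Pool.Agent.Lib.MP_184b96_al.Linear
import Pool.Agent.Lib.MP_184b96_al.Artin

/-!
# The reduction for odd dihedral Artin groups
-/

set_option autoImplicit false

namespace Pool.Agent.Lib.MP_184b96_al

/-! ### translation of words -/

/-- the word of `a` or `b` (or inverse) in terms of `u`, `v` -/
def trGen (k : ℕ) (z : Fin 2 × Bool) : EqWord :=
  if z.1 = 0 then
    if z.2 then List.replicate k (Sum.inr 1, false) ++ [(Sum.inr 0, true)]
    else (Sum.inr 0, false) :: List.replicate k (Sum.inr 1, true)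
  else
    if z.2 then (Sum.inr 0, false) :: List.replicate (k + 1) (Sum.inr 1, true)
    else List.replicate (k + 1) (Sum.inr 1, false) ++ [(Sum.inr 0, true)]

/-- translation of a letter -/
def trLetter (k : ℕ) (l : (ℕ ⊕ Fin 2) × Bool) : EqWord :=
  Sum.elim (fun j => [(Sum.inl j, l.2)]) (fun i => trGen k (i, l.2)) l.1

/-- translation of a word -/
def tr (k : ℕ) (w : EqWord) : EqWord := w.flatMap (trLetter k)

lemma primrec_trLetter (k : ℕ) : Primrec (trLetter k) := by
  have := Primrec.sumCasesOn (f := fun l : (ℕ ⊕ Fin 2) × Bool => l.1)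
    (g := fun l j => ([(Sum.inl j, l.2)] : EqWord)) (h := fun l i => trGen k (i, l.2))
    Primrec.fst
    (Primrec.list_cons.comp ((Primrec.sumInl.comp Primrec.snd).pair (Primrec.snd.comp Primrec.fst))
      (Primrec.const [])).to₂
    ((Primrec.dom_finite (trGen k)).comp (Primrec.snd.pair (Primrec.snd.comp Primrec.fst))).to₂
  refine this.of_eq ?_
  rintro ⟨l, b⟩
  cases l <;> rfl

lemma primrec_tr (k : ℕ) : Primrec (tr k) :=
  Primrec.list_flatMap Primrec.id ((primrec_trLetter k).comp Primrec.snd).to₂

section value

variable {G : Type*} [Group G]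

lemma wordVal_replicate (gen : Fin 2 → G) (x : ℕ → G) (n : ℕ) (l : (ℕ ⊕ Fin 2) × Bool) :
    wordVal gen x (List.replicate n l) = letterVal gen x l ^ n := by
  simp [wordVal]

lemma wordVal_flatMap (gen : Fin 2 → G) (x : ℕ → G) (f : (ℕ ⊕ Fin 2) × Bool → EqWord)
    (gen' : Fin 2 → G) (h : ∀ l, wordVal gen x (f l) = letterVal gen' x l) (w : EqWord) :
    wordVal gen x (w.flatMap f) = wordVal gen' x w := by
  induction w with
  | nil => rfl
  | cons l w ih => rw [List.flatMap_cons, wordVal_append, wordVal_cons, ih, h]

end value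

lemma wordVal_tr (k : ℕ) (x : ℕ → Q k) (w : EqWord) :
    wordVal (fpGen (2 * k + 1)) x (tr k w) = wordVal (pgen k) x w := by
  apply wordVal_flatMap
  rintro ⟨l, b⟩
  cases l with
  | inl j => cases b <;> simp [trLetter, wordVal, letterVal]
  | inr i =>
    have hu : fpGen (2 * k + 1) 0 = gu k := rfl
    have hv : fpGen (2 * k + 1) 1 = gv k := rfl
    fin_cases i <;> cases b
    · simp only [trLetter, trGen, Sum.elim_inr]
      simp [wordVal_cons, wordVal_replicate, letterVal, hu, hv, pgen]
    · simp only [trLetter, trGen, Sum.elim_inr]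
      simp [wordVal_append, wordVal_cons, wordVal_nil, wordVal_replicate, letterVal, hu, hv, pgen]
    · simp only [trLetter, trGen, Sum.elim_inr]
      simp [wordVal_append, wordVal_cons, wordVal_nil, wordVal_replicate, letterVal, hu, hv, pgen]
    · simp only [trLetter, trGen, Sum.elim_inr]
      simp [wordVal_cons, wordVal_replicate, letterVal, hu, hv, pgen]

/-! ### list of good residue vectors -/

open Classical in
/-- good residue vectors with index below `n` -/
noncomputable def goodList (M : ℕ) (T : List EqWord) (n : ℕ) : List (List ℕ) :=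
  Nat.rec [] (fun j acc => bif decide (Good M (T, digs M (Encodable.encode T) j))
    then digs M (Encodable.encode T) j :: acc else acc) n

lemma mem_goodList {M : ℕ} {T : List EqWord} {n : ℕ} {r : List ℕ} :
    r ∈ goodList M T n ↔ ∃ j < n, r = digs M (Encodable.encode T) j ∧ Good M (T, r) := by
  induction n with
  | zero => simp [goodList]
  | succ n ih =>
    have hstep : goodList M T (n + 1) = bif (@decide (Good M (T, digs M (Encodable.encode T) n))
      (Classical.propDecidable _)) then digs M (Encodable.encode T) n :: goodList M T n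
      else goodList M T n := rfl
    rw [hstep]
    by_cases hg : Good M (T, digs M (Encodable.encode T) n)
    · simp only [hg, decide_true, cond_true, List.mem_cons, ih]
      constructor
      · rintro (rfl | ⟨j, hj, h⟩)
        · exact ⟨n, Nat.lt_succ_self n, rfl, hg⟩
        · exact ⟨j, hj.trans (Nat.lt_succ_self n), h⟩
      · rintro ⟨j, hj, rfl, h⟩
        rcases Nat.lt_succ_iff_lt_or_eq.1 hj with hj' | rfl
        · exact Or.inr ⟨j, hj', rfl, h⟩
        · exact Or.inl rfl
    · simp only [hg, decide_false, cond_false, ih]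
      constructor
      · rintro ⟨j, hj, h⟩
        exact ⟨j, hj.trans (Nat.lt_succ_self n), h⟩
      · rintro ⟨j, hj, rfl, h⟩
        rcases Nat.lt_succ_iff_lt_or_eq.1 hj with hj' | rfl
        · exact ⟨j, hj', rfl, h⟩
        · exact absurd h hg

lemma computable_goodList {M : ℕ} (hM : 0 < M) :
    Computable fun z : List EqWord × ℕ => goodList M z.1 z.2 := by
  classical
  unfold goodList
  have hd : Computable fun z : (List EqWord × ℕ) × ℕ × List (List ℕ) =>
      digs M (Encodable.encode z.1.1) z.2.1 := by
    have : Primrec fun z : (List EqWord × ℕ) × ℕ × List (List ℕ) =>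
      digs M (Encodable.encode z.1.1) z.2.1 :=
      primrec_digs.comp ((Primrec.const M).pair ((Primrec.encode.comp (Primrec.fst.comp Primrec.fst)).pair
        (Primrec.fst.comp Primrec.snd)))
    exact this.to_comp
  refine Computable.nat_rec (f := fun z : List EqWord × ℕ => z.2)
    (g := fun _ => ([] : List (List ℕ)))
    (h := fun (z : List EqWord × ℕ) (q : ℕ × List (List ℕ)) =>
      bif @decide (Good M (z.1, digs M (Encodable.encode z.1) q.1)) (Classical.propDecidable _)
      then digs M (Encodable.encode z.1) q.1 :: q.2 else q.2)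
    Computable.snd (Computable.const []) ?_
  refine Computable.cond ?_ (Computable.list_cons.comp hd (Computable.snd.comp Computable.snd))
    (Computable.snd.comp Computable.snd)
  have hg := (computable_good hM).decide
  have h1 : Computable fun z : (List EqWord × ℕ) × ℕ × List (List ℕ) =>
      (z.1.1, digs M (Encodable.encode z.1.1) z.2.1) :=
    (Computable.fst.comp Computable.fst).pair hd
  refine (hg.comp h1).of_eq ?_
  intro z
  congr

/-! ### linear constraints -/

/-- dot product of the first `K` entries -/
def dot (K : ℕ) (e r : List ℕ) : ℕ :=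
  (List.range K).foldr (fun i acc => e.getD i 0 * r.getD i 0 + acc) 0

lemma dot_eq (K : ℕ) (e r : List ℕ) :
    dot K e r = ∑ i ∈ Finset.range K, e.getD i 0 * r.getD i 0 := by
  have h : ∀ l : List ℕ, l.foldr (fun i acc => e.getD i 0 * r.getD i 0 + acc) 0 =
      (l.map fun i => e.getD i 0 * r.getD i 0).sum := by
    intro l
    induction l with
    | nil => rfl
    | cons a l ih => rw [List.foldr_cons, ih]; simp
  rw [dot, h, ← List.sum_toFinset _ List.nodup_range]
  congr 1
  ext x
  simp

/-- `e` (coefficients and right-hand side) is a valid constraint for the residue vector `r` -/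
def Valid (M : ℕ) (e : List ℕ) (z : ℕ × List (List ℕ)) : Prop :=
  ∀ r ∈ z.2, dot z.1 e r % M = e.getD z.1 0 % M

lemma primrec_valid (M : ℕ) : PrimrecRel (Valid M) := by
  unfold Valid
  have hdot : Primrec fun z : List ℕ × (ℕ × List ℕ) => dot z.2.1 z.2.2 z.1 := by
    unfold dot
    refine Primrec.list_foldr (f := fun z : List ℕ × (ℕ × List ℕ) => List.range z.2.1)
      (g := fun _ => 0)
      (h := fun z (q : ℕ × ℕ) => z.2.2.getD q.1 0 * z.1.getD q.1 0 + q.2)
      (Primrec.list_range.comp (Primrec.fst.comp Primrec.snd)) (Primrec.const 0) ?_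
    refine Primrec₂.mk ?_
    exact Primrec.nat_add.comp
      (Primrec.nat_mul.comp
        ((Primrec.list_getD 0).comp (Primrec.snd.comp (Primrec.snd.comp Primrec.fst))
          (Primrec.fst.comp Primrec.snd))
        ((Primrec.list_getD 0).comp (Primrec.fst.comp Primrec.fst)
          (Primrec.fst.comp Primrec.snd)))
      (Primrec.snd.comp Primrec.snd)
  have hR : PrimrecRel fun (r : List ℕ) (z : ℕ × List ℕ) =>
      dot z.1 z.2 r % M = z.2.getD z.1 0 % M := by
    exact Primrec.eq.comp (Primrec.nat_mod.comp hdot (Primrec.const M))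
      (Primrec.nat_mod.comp ((Primrec.list_getD 0).comp (Primrec.snd.comp Primrec.snd)
        (Primrec.fst.comp Primrec.snd)) (Primrec.const M))
  exact hR.forall_mem_list.comp (Primrec.snd.comp Primrec.snd)
    ((Primrec.fst.comp Primrec.snd).pair Primrec.fst)

/-- the word `x_0^{e_0} ⋯ x_{K-1}^{e_{K-1}} a^{-e_K}` -/
def conWord (k K : ℕ) (e : List ℕ) : EqWord :=
  ((List.range K).flatMap fun i => (List.range (e.getD i 0)).map fun _ => (Sum.inl i, true)) ++
    (List.range (e.getD K 0)).flatMap fun _ => trGen k (0, false)

lemma primrec_conWord (k : ℕ) : Primrec₂ (conWord k) := by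
  unfold conWord
  refine Primrec₂.mk ?_
  refine Primrec.list_append.comp ?_ ?_
  · refine Primrec.list_flatMap (Primrec.list_range.comp Primrec.fst) ?_
    refine Primrec₂.mk ?_
    refine Primrec.list_map (Primrec.list_range.comp ((Primrec.list_getD 0).comp
      (Primrec.snd.comp Primrec.fst) Primrec.snd)) ?_
    refine Primrec₂.mk ?_
    exact (Primrec.sumInl.comp (Primrec.snd.comp Primrec.fst)).pair (Primrec.const true)
  · refine Primrec.list_flatMap (Primrec.list_range.comp ((Primrec.list_getD 0).comp
      Primrec.snd Primrec.fst)) ?_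
    exact Primrec₂.const _

lemma wordVal_conWord {H : Type*} [CommGroup H] (gen : Fin 2 → H) (x : ℕ → H) (k K : ℕ)
    (e : List ℕ) : wordVal gen x (conWord k K e) =
      (∏ i ∈ Finset.range K, x i ^ e.getD i 0) * ((gen 0)⁻¹ * gen 1 ^ k) ^ e.getD K 0 := by
  rw [conWord, wordVal_append]
  congr 1
  · have h : ∀ K : ℕ, wordVal gen x ((List.range K).flatMap fun i =>
        (List.range (e.getD i 0)).map fun _ => (Sum.inl i, true)) =
        ∏ i ∈ Finset.range K, x i ^ e.getD i 0 := by
      intro K
      induction K with
      | zero => simp [wordVal]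
      | succ K ih =>
        rw [List.range_succ, List.flatMap_append, wordVal_append, ih, Finset.prod_range_succ]
        congr 1
        simp [wordVal, letterVal]
    exact h K
  · have h : ∀ n : ℕ, wordVal gen x ((List.range n).flatMap fun _ => trGen k (0, false)) =
        ((gen 0)⁻¹ * gen 1 ^ k) ^ n := by
      intro n
      induction n with
      | zero => simp [wordVal]
      | succ n ih =>
        rw [List.range_succ, List.flatMap_append, wordVal_append, ih, pow_succ]
        congr 1
        simp [trGen, wordVal, letterVal]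
    exact h _

/-! ### the reduction map -/

/-- the list of all valid constraints -/
noncomputable def validList (M K : ℕ) (R : List (List ℕ)) : List (List ℕ) :=
  haveI : DecidableRel (Valid M) := fun _ _ => Classical.propDecidable _
  ((List.range (M ^ (K + 1))).map (digs M (K + 1))).filter fun e => Valid M e (K, R)

lemma mem_validList {M K : ℕ} {R : List (List ℕ)} {e : List ℕ} :
    e ∈ validList M K R ↔ (∃ n < M ^ (K + 1), digs M (K + 1) n = e) ∧ Valid M e (K, R) := by
  unfold validList
  simp

lemma primrec_validList (M : ℕ) : Primrec₂ (validList M) := by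
  let _ : DecidableRel (Valid M) := fun _ _ => Classical.propDecidable _
  have h1 : Primrec fun z : ℕ × List (List ℕ) =>
      (List.range (M ^ (z.1 + 1))).map (digs M (z.1 + 1)) := by
    refine Primrec.list_map (Primrec.list_range.comp (primrec_pow.comp (Primrec.const M)
      (Primrec.succ.comp Primrec.fst))) ?_
    refine Primrec₂.mk ?_
    exact primrec_digs.comp ((Primrec.const M).pair
      ((Primrec.succ.comp (Primrec.fst.comp Primrec.fst)).pair Primrec.snd))
  have h2 := (PrimrecRel.listFilter (primrec_valid M)).comp h1 (Primrec.id)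
  refine Primrec₂.mk (h2.of_eq ?_)
  intro z
  simp only [validList]
  rfl

/-- post-processing -/
noncomputable def post (k : ℕ) (z : (List EqWord × List EqWord) × List (List ℕ)) :
    List EqWord × List EqWord :=
  if z.2 = [] then ([], [[(Sum.inr 0, true)]])
  else (z.1.1.map (tr k), (validList (md k) (Encodable.encode (z.1.1 ++ z.1.2)) z.2).map
    (conWord k (Encodable.encode (z.1.1 ++ z.1.2))))

lemma primrec_post (k : ℕ) : Primrec (post k) := by
  unfold post
  have hK : Primrec fun z : (List EqWord × List EqWord) × List (List ℕ) =>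
      Encodable.encode (z.1.1 ++ z.1.2) :=
    Primrec.encode.comp (Primrec.list_append.comp (Primrec.fst.comp Primrec.fst)
      (Primrec.snd.comp Primrec.fst))
  refine Primrec.ite (Primrec.eq.comp Primrec.snd (Primrec.const [])) (Primrec.const _) ?_
  refine (Primrec.list_map (Primrec.fst.comp Primrec.fst)
    ((primrec_tr k).comp Primrec.snd).to₂).pair ?_
  refine Primrec.list_map ((primrec_validList (md k)).comp hK Primrec.snd) ?_
  refine Primrec₂.mk ?_
  exact (primrec_conWord k).comp (hK.comp Primrec.fst) Primrec.snd

/-- the reduction map -/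
noncomputable def redA (k : ℕ) (z : List EqWord × List EqWord) : List EqWord × List EqWord :=
  post k (z, goodList (md k) (z.1 ++ z.2) (md k ^ Encodable.encode (z.1 ++ z.2)))

lemma md_pos (k : ℕ) : 0 < md k := by unfold md; omega

lemma computable_redA (k : ℕ) : Computable (redA k) := by
  unfold redA
  refine (primrec_post k).to_comp.comp (Computable.id.pair ?_)
  have hT : Primrec fun z : List EqWord × List EqWord => z.1 ++ z.2 :=
    Primrec.list_append.comp Primrec.fst Primrec.snd
  refine (computable_goodList (md_pos k)).comp (f := fun z : List EqWord × ℕ =>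
    goodList (md k) z.1 z.2) (g := fun z : List EqWord × List EqWord =>
    (z.1 ++ z.2, md k ^ Encodable.encode (z.1 ++ z.2))) ?_
  exact (hT.pair (primrec_pow.comp (Primrec.const _) (Primrec.encode.comp hT))).to_comp

/-! ### correctness -/

lemma digs_getD (B L n i : ℕ) (hi : i < L) : (digs B L n).getD i 0 = n / B ^ i % B := by
  simp [digs, List.getD, hi]

lemma digs_length (B L n : ℕ) : (digs B L n).length = L := by simp [digs]

/-- The problem for `A` in terms of `Q` and `ℤ`. -/
lemma dpab_iff (k : ℕ) (S S' : List EqWord) : DPab (artinGen (2 * k + 1)) (S, S') ↔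
    ∃ (q : ℕ → Q k) (y : ℕ → ℤ), (∀ j, rho k (q j) = Multiplicative.ofAdd ((y j : ℤ) : ZMod (md k))) ∧
      (∀ w ∈ S, wordVal (fpGen (2 * k + 1)) q (tr k w) = 1) ∧ ∀ w ∈ S ++ S', linVal y w = 0 := by
  have hgenp : (fun i => p k (artinGen (2 * k + 1) i)) = pgen k := by
    funext i
    fin_cases i
    · exact p_ga k
    · exact p_gb k
  have hgene : (fun i => ex k (artinGen (2 * k + 1) i)) = fun _ => Multiplicative.ofAdd (1 : ℤ) := by
    funext i
    fin_cases i
    · exact ex_ga k
    · exact ex_gb k
  constructor
  · rintro ⟨x, h1, h2⟩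
    have hy : (fun j => Multiplicative.ofAdd (ex k (x j)).toAdd) = fun j => ex k (x j) := by
      funext j; simp
    refine ⟨fun j => p k (x j), fun j => (ex k (x j)).toAdd, ?_, ?_, ?_⟩
    · intro j
      rw [rho_p]; rfl
    · intro w hw
      rw [wordVal_tr, ← hgenp, wordVal_map (p k), h1 w hw, map_one]
    · intro w hw
      have h3 : ex k (wordVal (artinGen (2 * k + 1)) x w) = 1 := by
        rcases List.mem_append.1 hw with hw | hw
        · rw [h1 w hw, map_one]
        · rw [← ab_one_iff, ← wordVal_map Abelianization.of]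
          exact h2 w hw
      rw [← wordVal_map (ex k), hgene, ← hy, wordVal_eq_linVal] at h3
      exact Multiplicative.ofAdd.injective h3
  · rintro ⟨q, y, h1, h2, h3⟩
    choose x hx1 hx2 using fun j => exists_lift k (q j) (y j) (h1 j)
    have hxq : (fun j => p k (x j)) = q := funext hx1
    have hxy : (fun j => ex k (x j)) = fun j => Multiplicative.ofAdd (y j) := funext hx2
    have hex : ∀ w ∈ S ++ S', ex k (wordVal (artinGen (2 * k + 1)) x w) = 1 := by
      intro w hw
      rw [← wordVal_map (ex k), hgene, hxy, wordVal_eq_linVal, h3 w hw]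
      rfl
    refine ⟨x, ?_, ?_⟩
    · intro w hw
      rw [eq_one_iff]
      refine ⟨?_, hex w (List.mem_append_left _ hw)⟩
      rw [← wordVal_map (p k), hgenp, hxq, ← wordVal_tr]
      exact h2 w hw
    · intro w hw
      rw [wordVal_map Abelianization.of, ab_one_iff]
      exact hex w (List.mem_append_right _ hw)

lemma con_iff (k K : ℕ) (q : ℕ → Q k) (t : ℕ → ZMod (md k))
    (ht : ∀ j, rho k (q j) = Multiplicative.ofAdd (t j)) (e : List ℕ) :
    wordVal (fun i => Abelianization.of (fpGen (2 * k + 1) i)) (fun j => Abelianization.of (q j))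
      (conWord k K e) = 1 ↔
    ∑ i ∈ Finset.range K, (e.getD i 0 : ZMod (md k)) * t i = (e.getD K 0 : ZMod (md k)) := by
  rw [wordVal_map Abelianization.of, abQ_one_iff, ← wordVal_map (rho k), wordVal_conWord]
  have hu : rho k (fpGen (2 * k + 1) 0) = Multiplicative.ofAdd (2 * k + 1 : ZMod (md k)) := rho_gu k
  have hv : rho k (fpGen (2 * k + 1) 1) = Multiplicative.ofAdd 2 := rho_gv k
  rw [hu, hv]
  simp_rw [ht]
  have hc : (Multiplicative.ofAdd (2 * k + 1 : ZMod (md k)))⁻¹ * Multiplicative.ofAdd 2 ^ k =
      (Multiplicative.ofAdd (1 : ZMod (md k)))⁻¹ := by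
    apply Multiplicative.toAdd.injective
    simp
    ring
  rw [hc, inv_pow, mul_inv_eq_one]
  rw [← Multiplicative.toAdd.injective.eq_iff]
  simp only [toAdd_prod, toAdd_pow, toAdd_ofAdd, nsmul_eq_mul, mul_one]

/-- vector of residues -/
lemma exists_digs (M : ℕ) (hM : 0 < M) (K : ℕ) (y : ℕ → ℤ) :
    ∃ n < M ^ K, ∀ i < K, (M : ℤ) ∣ y i - ((digs M K n).getD i 0 : ℕ) := by
  have hMz : (M : ℤ) ≠ 0 := by exact_mod_cast hM.ne'
  have hMp : (0 : ℤ) < M := by exact_mod_cast hM
  obtain ⟨n, hn, hd⟩ := exists_digits M (fun i => (y i % M).toNat) (by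
    intro i
    have h3 := Int.emod_lt_of_pos (y i) hMp
    have h4 := Int.emod_nonneg (y i) hMz
    omega) K
  refine ⟨n, hn, ?_⟩
  intro i hi
  rw [digs_getD _ _ _ _ hi, hd i hi]
  have h4 := Int.emod_nonneg (y i) hMz
  rw [Int.toNat_of_nonneg h4]
  have := Int.emod_add_mul_ediv (y i) M
  exact ⟨(y i / M), by linear_combination -this⟩

lemma cast_eq_of_dvd {M : ℕ} {a : ℤ} {b : ℕ} (h : (M : ℤ) ∣ a - b) : ((a : ℤ) : ZMod M) = (b : ZMod M) := by
  have := (ZMod.intCast_zmod_eq_zero_iff_dvd (a - b) M).2 h
  push_cast at this
  exact sub_eq_zero.1 this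

theorem correct (k : ℕ) (z : List EqWord × List EqWord) :
    DPab (artinGen (2 * k + 1)) z ↔ DPab (fpGen (2 * k + 1)) (redA k z) := by
  obtain ⟨S, S'⟩ := z
  set T := S ++ S' with hT
  set K := Encodable.encode T with hK
  set M := md k with hM
  have hM0 : 0 < M := md_pos k
  set R := goodList M T (M ^ K) with hR
  have hred : redA k (S, S') = post k ((S, S'), R) := rfl
  -- a solution gives a good residue vector
  have hsol : ∀ y : ℕ → ℤ, (∀ w ∈ T, linVal y w = 0) →
      ∃ r ∈ R, ∀ i < K, ((y i : ℤ) : ZMod M) = (r.getD i 0 : ZMod M) := by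
    intro y hy
    obtain ⟨n, hn, hd⟩ := exists_digs M hM0 K y
    refine ⟨digs M K n, ?_, fun i hi => cast_eq_of_dvd (hd i hi)⟩
    rw [hR, mem_goodList]
    refine ⟨n, hn, rfl, y, hy, ?_⟩
    intro i hi
    simp only [digs_length] at hi
    exact hd i hi
  rw [dpab_iff, hred]
  by_cases hRe : R = []
  · -- no good vectors
    have h1 : post k ((S, S'), R) = ([], [[(Sum.inr 0, true)]]) := by simp [post, hRe]
    rw [h1]
    constructor
    · rintro ⟨q, y, _, _, h3⟩
      obtain ⟨r, hr, _⟩ := hsol y h3
      rw [hRe] at hr
      simp at hr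
    · rintro ⟨x, _, h2⟩
      exfalso
      have h3 := h2 [(Sum.inr 0, true)] (by simp)
      simp only [wordVal, letterVal, List.map_cons, List.map_nil, List.prod_cons, List.prod_nil,
        mul_one, if_true, Sum.elim_inr] at h3
      rw [abQ_one_iff] at h3
      have hu : rho k (fpGen (2 * k + 1) 0) = Multiplicative.ofAdd (2 * k + 1 : ZMod (md k)) :=
        rho_gu k
      rw [hu, ← ofAdd_zero] at h3
      have h4 : (2 * k + 1 : ZMod (md k)) = 0 := Multiplicative.ofAdd.injective h3
      have h5 : ((2 * k + 1 : ℕ) : ZMod (md k)) = 0 := by push_cast; exact h4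
      rw [ZMod.natCast_eq_zero_iff] at h5
      have := Nat.le_of_dvd (by omega) h5
      simp only [md] at this
      omega
  · have h1 : post k ((S, S'), R) = (S.map (tr k), (validList M K R).map (conWord k K)) := by
      simp [post, hRe, hM, hK, hT]
    rw [h1]
    constructor
    · rintro ⟨q, y, h2, h3, h4⟩
      refine ⟨q, ?_, ?_⟩
      · intro w hw
        obtain ⟨v, hv, rfl⟩ := List.mem_map.1 hw
        exact h3 v hv
      · intro w hw
        obtain ⟨e, he, rfl⟩ := List.mem_map.1 hw
        obtain ⟨r, hr, hyr⟩ := hsol y h4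
        rw [mem_validList] at he
        have h5 := he.2 r hr
        simp only at h5
        rw [con_iff k K q (fun j => ((y j : ℤ) : ZMod (md k))) h2]
        have h6 := (ZMod.natCast_eq_natCast_iff _ _ M).2 h5
        rw [dot_eq] at h6
        push_cast at h6
        rw [← h6]
        apply Finset.sum_congr rfl
        intro i hi
        rw [hyr i (Finset.mem_range.1 hi)]
    · rintro ⟨q, h2, h3⟩
      -- a particular solution
      obtain ⟨r₀, hr₀⟩ := List.exists_mem_of_ne_nil R hRe
      obtain ⟨n₀, hn₀, rfl, y₀, hy₀, hy₀r⟩ := mem_goodList.1 hr₀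
      simp only at hy₀
      have hrho : ∀ j, ∃ t : ZMod M, rho k (q j) = Multiplicative.ofAdd t := fun j =>
        ⟨(rho k (q j)).toAdd, by simp⟩
      choose t ht using hrho
      -- homogeneous solutions
      let X : AddSubgroup (ℕ → ℤ) :=
        { carrier := {x | ∀ w ∈ T, linHom x w = 0}
          zero_mem' := fun w _ => linHom_zero w
          add_mem' := by
            intro a b ha hb w hw
            rw [linHom_add, ha w hw, hb w hw, add_zero]
          neg_mem' := by
            intro a ha w hw
            have := linHom_add a (-a) w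
            rw [add_neg_cancel, linHom_zero, ha w hw] at this
            omega }
      let f : X →+ (Fin K → ZMod M) :=
        { toFun := fun x i => ((x.1 i : ℤ) : ZMod M)
          map_zero' := by ext i; simp
          map_add' := by intro a b; ext i; simp }
      have hsolX : ∀ y : ℕ → ℤ, (∀ w ∈ T, linVal y w = 0) → y - y₀ ∈ X := by
        intro y hy w hw
        have e1 := linHom_add (y - y₀) y₀ w
        rw [sub_add_cancel] at e1
        have e2 := linVal_split y w
        have e3 := linVal_split y₀ w
        have e4 := hy w hw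
        have e5 := hy₀ w hw
        omega
      obtain ⟨x, hx⟩ := duality hM0 f (fun i => t i - ((y₀ i : ℤ) : ZMod M)) (by
        intro c hc hcx
        -- the constraint
        let d : ℕ := (∑ i : Fin K, (c i : ZMod M) * ((y₀ i : ℤ) : ZMod M)).val
        have : NeZero M := ⟨hM0.ne'⟩
        let s : ℕ → ℕ := fun i => if h : i < K then c ⟨i, h⟩ else d
        have hs : ∀ i, s i < M := by
          intro i
          simp only [s]
          split_ifs with h
          · exact hc _
          · exact ZMod.val_lt _
        obtain ⟨n, hn, hd⟩ := exists_digits M s hs (K + 1)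
        have hsum : ∀ g : ℕ → ZMod M, ∑ i ∈ Finset.range K, (((digs M (K + 1) n).getD i 0 : ℕ) : ZMod M) * g i =
            ∑ i : Fin K, (c i : ZMod M) * g i := by
          intro g
          rw [Finset.sum_range]
          apply Finset.sum_congr rfl
          intro i _
          rw [digs_getD _ _ _ _ (by omega), hd _ (by omega)]
          simp [s]
        have hdK : (((digs M (K + 1) n).getD K 0 : ℕ) : ZMod M) =
            ∑ i : Fin K, (c i : ZMod M) * ((y₀ i : ℤ) : ZMod M) := by
          rw [digs_getD _ _ _ _ (by omega), hd _ (by omega)]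
          simp [s, d]
        have hval : digs M (K + 1) n ∈ validList M K R := by
          rw [mem_validList]
          refine ⟨⟨n, hn, rfl⟩, ?_⟩
          intro r hr
          obtain ⟨n', hn', rfl, y, hy, hyr⟩ := mem_goodList.1 hr
          simp only at hy hyr ⊢
          have e0 : dot K (digs M (K + 1) n) (digs M K n') ≡ (digs M (K + 1) n).getD K 0 [MOD M] := by
            rw [← ZMod.natCast_eq_natCast_iff, dot_eq, hdK]
            push_cast
            rw [hsum fun i => (((digs M K n').getD i 0 : ℕ) : ZMod M)]
            have e1 := hcx ⟨y - y₀, hsolX y hy⟩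
            have e2 : ∀ i : Fin K, f ⟨y - y₀, hsolX y hy⟩ i =
                ((y i : ℤ) : ZMod M) - ((y₀ i : ℤ) : ZMod M) := by
              intro i
              simp [f]
            simp_rw [e2, mul_sub] at e1
            rw [Finset.sum_sub_distrib, sub_eq_zero] at e1
            rw [← e1]
            apply Finset.sum_congr rfl
            intro i _
            have e3 := hyr i (by rw [digs_length]; exact i.2)
            rw [cast_eq_of_dvd e3]
          exact e0
        have h4 := h3 _ (List.mem_map.2 ⟨_, hval, rfl⟩)
        rw [con_iff k K q t ht, hsum, hdK] at h4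
        simp_rw [mul_sub]
        rw [Finset.sum_sub_distrib, h4, sub_self])
      -- build the integer solution
      have hlift : ∀ j, ∃ m : ℤ, ((m : ℤ) : ZMod M) = t j := fun j => ZMod.intCast_surjective (t j)
      choose m hm using hlift
      let y : ℕ → ℤ := fun j => if j < K then y₀ j + x.1 j else m j
      refine ⟨q, y, ?_, ?_, ?_⟩
      · intro j
        rw [ht j]
        congr 1
        simp only [y]
        split_ifs with h
        · have := congrFun hx ⟨j, h⟩
          simp only [f, AddMonoidHom.coe_mk, ZeroHom.coe_mk] at this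
          push_cast
          rw [this]; ring
        · exact (hm j).symm
      · intro w hw
        exact h2 _ (List.mem_map.2 ⟨w, hw, rfl⟩)
      · intro w hw
        have e1 : linVal y w = linVal (y₀ + x.1) w := by
          apply linVal_congr
          intro j b hj
          have : j < K := var_lt hw hj
          simp [y, this]
        have e2 := linVal_split (y₀ + x.1) w
        have e3 := linVal_split y₀ w
        have e4 := linHom_add y₀ x.1 w
        have e5 := x.2 w hw
        have e6 := hy₀ w hw
        rw [e1, e2, e4, e5]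
        omega

theorem artin_reduction (k : ℕ) :
    ManyOneReducible (DPab (artinGen (2 * k + 1))) (DPab (fpGen (2 * k + 1))) :=
  ⟨redA k, computable_redA k, correct k⟩

/-- The abelianisation of `ℤ/2 * ℤ/m`, `m` odd, is finite. -/
theorem finite_abQ (k : ℕ) : Finite (Abelianization (FP (2 * k + 1))) := by
  have : NeZero (md k) := ⟨(md_pos k).ne'⟩
  have hf : Finite (Multiplicative (ZMod (md k))) := inferInstanceAs (Finite (ZMod (md k)))
  apply Finite.of_injective (Abelianization.lift (rho k))
  rw [injective_iff_map_eq_one]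
  intro q hq
  obtain ⟨q, rfl⟩ := QuotientGroup.mk_surjective q
  have h2 : Abelianization.lift (rho k) (Abelianization.of q) = 1 := hq
  rw [Abelianization.lift_apply_of] at h2
  exact (abQ_one_iff k q).2 h2

end Pool.Agent.Lib.MP_184b96_al
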